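import Pool.Agent.R509.PQ.Mom

/-!
Library R509.PQ (helper509): comparison for all the moments, bounded functions.
-/

set_option autoImplicit false

namespace Pool.Agent.R509.PQ

open Finset
open Pool.Agent.R509.CD

section main

variable {K : ℕ} [NeZero K] {p : ℕ} [NeZero p]

lemma mu_sum_le (f : ZMod K → ℝ) (hf : ∀ x, f x ^ 2 ≤ 1) : ∑ θ, mu f θ ≤ 1 := by
  have h1 := spec_a f 0
  have h2 : R f 0 ≤ 1 := by
    unfold R
    apply div_le_one_of_le₀ _ (Nat.cast_nonneg _)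
    have : ∀ x ∈ (univ : Finset (ZMod K)), f x * f (x + 0) ≤ 1 := by
      intro x _
      rw [add_zero, ← sq]
      exact hf x
    refine (sum_le_sum this).trans (le_of_eq ?_)
    rw [sum_const, card_univ, ZMod.card, nsmul_eq_mul, mul_one]
  simp only [zero_mul, ch_zero, mul_one] at h1
  have h3 : R f 0 = ∑ θ, mu f θ := by exact_mod_cast h1
  rw [← h3]
  exact h2

open Classical in
/-- the contribution of the tuples with a coordinate in a set of small balls -/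
lemma bad_le' (μ : ZMod K → ℝ) (hμ : ∀ x, 0 ≤ μ x) (hμ1 : ∑ x, μ x ≤ 1) (w η : ℝ) (hη : 0 ≤ η)
    (U : Finset (ZMod K)) (hU : ∀ x, x ∉ U → ∑ y ∈ univ.filter (fun y => N (y - x) ≤ 2 * w), μ y ≤ η)
    (k : ℕ) (i : Fin k) :
    ∑ Θ : Fin k → ZMod K, (if Θ i ∉ U ∧ N (∑ j, Θ j) ≤ w then ∏ j, μ (Θ j) else 0) ≤ η := by
  obtain ⟨n, rfl⟩ : ∃ n, k = n + 1 := ⟨k - 1, by have := i.2; omega⟩
  rw [← (Fin.insertNthEquiv (fun _ => ZMod K) i).sum_comp, Fintype.sum_prod_type_right]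
  have h1 : ∀ Φ : Fin n → ZMod K, ∑ θ : ZMod K,
      (if (Fin.insertNthEquiv (fun _ => ZMod K) i) (θ, Φ) i ∉ U ∧ N (∑ j, (Fin.insertNthEquiv (fun _ => ZMod K) i) (θ, Φ) j) ≤ w
        then ∏ j, μ ((Fin.insertNthEquiv (fun _ => ZMod K) i) (θ, Φ) j) else 0) ≤ η * ∏ j, μ (Φ j) := by
    intro Φ
    have e1 : ∀ θ : ZMod K,
      (if (Fin.insertNthEquiv (fun _ => ZMod K) i) (θ, Φ) i ∉ U ∧ N (∑ j, (Fin.insertNthEquiv (fun _ => ZMod K) i) (θ, Φ) j) ≤ w
        then ∏ j, μ ((Fin.insertNthEquiv (fun _ => ZMod K) i) (θ, Φ) j) else 0) =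
        (if θ ∉ U ∧ N (θ + ∑ j, Φ j) ≤ w then μ θ else 0) * ∏ j, μ (Φ j) := by
      intro θ
      rw [Fin.sum_univ_succAbove _ i, Fin.prod_univ_succAbove _ i]
      simp only [Fin.insertNthEquiv_apply, Fin.insertNth_apply_same, Fin.insertNth_apply_succAbove]
      split_ifs
      · rfl
      · rw [zero_mul]
    rw [sum_congr rfl fun θ _ => e1 θ, ← sum_mul]
    apply mul_le_mul_of_nonneg_right _ (prod_nonneg fun j _ => hμ _)
    by_cases hex : ∃ θ₀, θ₀ ∉ U ∧ N (θ₀ + ∑ j, Φ j) ≤ w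
    · obtain ⟨θ₀, h0, h0'⟩ := hex
      refine le_trans ?_ (hU θ₀ h0)
      rw [sum_filter]
      apply sum_le_sum
      intro θ _
      by_cases hθ : θ ∉ U ∧ N (θ + ∑ j, Φ j) ≤ w
      · rw [if_pos hθ, if_pos]
        have e2 : θ - θ₀ = (θ + ∑ j, Φ j) + -(θ₀ + ∑ j, Φ j) := by ring
        rw [e2]
        refine (N_add _ _).trans ?_
        rw [N_neg]
        linarith [hθ.2]
      · rw [if_neg hθ]
        split_ifs
        · exact hμ _
        · exact le_rfl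
    · refine le_trans (le_of_eq (sum_eq_zero fun θ _ => ?_)) hη
      rw [if_neg]
      intro h
      exact hex ⟨θ, h⟩
  refine (sum_le_sum fun Φ _ => h1 Φ).trans ?_
  rw [← mul_sum]
  have h2 : ∑ Φ : Fin n → ZMod K, ∏ j, μ (Φ j) ≤ 1 := by
    rw [← Fintype.sum_pow]
    exact pow_le_one₀ (sum_nonneg fun θ _ => hμ θ) hμ1
  exact mul_le_of_le_one_right hη h2

/-- **comparison**, one step for all the moments -/
theorem cmp_all (f : ZMod K → ℝ) (hf : ∀ x, f x ^ 2 ≤ 1) (k0 : ℕ) (Q N0 A : ℕ) (hQ : 26 * (k0 + 1) ≤ Q)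
    (η w : ℝ) (hη : 0 < η) (hN0 : 1 / η ≤ N0) (hw : 0 < w) (hw2 : 4 * ((Q : ℝ) ^ N0 * p) * w ≤ 1 / Q) (hA : 1 ≤ A) :
    ∃ m : ℕ, 1 ≤ m ∧ m ≤ Q ^ N0 ∧ ∀ k ≤ k0,
      (∑ s ∈ range A, ∑ s' ∈ range A, R f ((s : ZMod K) - (s' : ZMod K)) ^ k) / (A : ℝ) ^ 2 ≤
        1 / (4 * (A : ℝ) ^ 2 * w ^ 2) + k * η + 26 * k / Q +
          (∑ j : ZMod p, ((∑ y, R (gy (p := p) f m y) j) / K) ^ k) / p := by
  classical
  have hK : (0 : ℝ) < K := K_pos
  have hp : (0 : ℝ) < p := K_pos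
  have hQ1 : 1 ≤ Q := by omega
  have hQ0 : (0 : ℝ) < Q := by exact_mod_cast hQ1
  have hμ0 : ∀ θ, 0 ≤ mu f θ := mu_nonneg f
  have hμ1 : ∑ θ, mu f θ ≤ 1 := mu_sum_le f hf
  -- balls
  set B : ZMod K → Finset (ZMod K) := fun x => univ.filter (fun y => N (y - x) ≤ 2 * w) with hB
  obtain ⟨S, hS1, hS2⟩ := separated (mu f) hμ0 hμ1 B (by
    intro x
    rw [hB]
    simp only [mem_filter, mem_univ, true_and, sub_self, N_zero]
    positivity) η
  have hSc : S.card ≤ N0 := by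
    have h1 : (S.card : ℝ) ≤ 1 / η := by
      rw [le_div_iff₀ hη]
      exact hS1
    exact_mod_cast h1.trans hN0
  obtain ⟨m, hm1, hm2, hm3⟩ := dirichlet S (fun s => (p : ℝ) * ((s.val : ℝ) / K)) Q hQ1
  have hmQ : m ≤ Q ^ N0 := hm2.trans (Nat.pow_le_pow_right hQ1 hSc)
  have hmR : (m : ℝ) ≤ (Q : ℝ) ^ N0 := by exact_mod_cast hmQ
  refine ⟨m, hm1, hmQ, fun k hkk => ?_⟩
  have hQr : 26 * ((k : ℝ) + 1) ≤ Q := by exact_mod_cast (by omega : 26 * (k + 1) ≤ Q)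
  have hk0 : (0 : ℝ) ≤ k := Nat.cast_nonneg k
  set U : Finset (ZMod K) := univ.filter (fun x => η ≤ ∑ y ∈ B x, mu f y) with hU
  have hUt : ∀ θ ∈ U, nd ((m : ℝ) * p * ((θ.val : ℝ) / K)) ≤ 2 / Q := by
    intro θ hθ
    rw [hU, mem_filter] at hθ
    obtain ⟨s, hs, z, hz⟩ := hS2 θ hθ.2
    rw [mem_inter, hB] at hz
    simp only [mem_filter, mem_univ, true_and] at hz
    have h1 : N (θ - s) ≤ 4 * w := by
      have e1 : θ - s = -(z - θ) + (z - s) := by ring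
      rw [e1]
      refine (N_add _ _).trans ?_
      rw [N_neg]
      linarith [hz.1, hz.2]
    have e2 : (m : ℝ) * p * ((θ.val : ℝ) / K) = m * (p * ((s.val : ℝ) / K)) +
        ((m * p : ℕ) : ℝ) * ((θ.val : ℝ) / K - (s.val : ℝ) / K) := by
      push_cast
      ring
    rw [e2]
    refine (nd_add _ _).trans ?_
    have h3 := hm3 s hs
    have h4 := nd_mul (m * p) ((θ.val : ℝ) / K - (s.val : ℝ) / K)
    rw [N_sub] at h4
    have h5 : ((m * p : ℕ) : ℝ) * N (θ - s) ≤ ((Q : ℝ) ^ N0 * p) * (4 * w) := by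
      push_cast
      apply mul_le_mul _ h1 (N_nonneg _) (by positivity)
      exact mul_le_mul_of_nonneg_right hmR hp.le
    have h6 : 2 / (Q : ℝ) = 1 / Q + 1 / Q := by ring
    rw [h6]
    nlinarith
  set n : ZMod K → ℤ := fun θ => round ((m : ℝ) * p * ((θ.val : ℝ) / K)) with hn
  set ξ : ZMod K → ZMod p := fun θ => (n θ : ZMod p) with hξ
  -- the sum rule
  have hsum : ∀ Θ : Fin k → ZMod K, (∀ i, Θ i ∈ U) → N (∑ i, Θ i) ≤ w → ∑ i, ξ (Θ i) = 0 := by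
    intro Θ hΘ hN
    have h1 : ∑ i, Θ i = ((∑ i, ((Θ i).val : ℤ) : ℤ) : ZMod K) := by
      rw [Int.cast_sum]
      exact sum_congr rfl fun i _ => (val_int _).symm
    rw [h1, N_int] at hN
    set b : ℝ := ((∑ i, ((Θ i).val : ℤ) : ℤ) : ℝ) / K with hb
    have h2 : ∑ i, (m : ℝ) * p * (((Θ i).val : ℝ) / K) = m * p * b := by
      rw [hb, ← mul_sum, ← sum_div]
      push_cast
      rfl
    have h3 : |((∑ i, n (Θ i) : ℤ) : ℝ) - ((m * p * round b : ℤ) : ℝ)| < 1 := by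
      have e1 : ((∑ i, n (Θ i) : ℤ) : ℝ) - ((m * p * round b : ℤ) : ℝ) =
          (∑ i, ((n (Θ i) : ℝ) - (m : ℝ) * p * (((Θ i).val : ℝ) / K))) + m * p * (b - round b) := by
        rw [sum_sub_distrib, h2]
        push_cast
        ring
      rw [e1]
      refine lt_of_le_of_lt (abs_add_le _ _) ?_
      have e2 : |∑ i, ((n (Θ i) : ℝ) - (m : ℝ) * p * (((Θ i).val : ℝ) / K))| ≤ k * (2 / Q) := by
        refine (abs_sum_le_sum_abs _ _).trans ?_
        have : ∀ i ∈ (univ : Finset (Fin k)), |(n (Θ i) : ℝ) - (m : ℝ) * p * (((Θ i).val : ℝ) / K)| ≤ 2 / Q := by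
          intro i _
          rw [abs_sub_comm]
          exact hUt (Θ i) (hΘ i)
        refine (sum_le_sum this).trans (le_of_eq ?_)
        rw [sum_const, card_univ, Fintype.card_fin, nsmul_eq_mul]
      have e3 : |(m : ℝ) * p * (b - round b)| ≤ 1 / (4 * Q) := by
        rw [abs_mul, abs_of_nonneg (by positivity : (0 : ℝ) ≤ m * p)]
        have e4 : |b - round b| ≤ w := hN
        have e5 : (m : ℝ) * p * |b - round b| ≤ ((Q : ℝ) ^ N0 * p) * w := by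
          apply mul_le_mul _ e4 (abs_nonneg _) (by positivity)
          exact mul_le_mul_of_nonneg_right hmR hp.le
        refine e5.trans ?_
        rw [le_div_iff₀ (by positivity)]
        rw [le_div_iff₀ hQ0] at hw2
        nlinarith
      have e6 : (k : ℝ) * (2 / Q) + 1 / (4 * Q) < 1 := by
        have : (k : ℝ) * (2 / Q) + 1 / (4 * Q) = (2 * k + 1 / 4) / Q := by
          field_simp
        rw [this, div_lt_one hQ0]
        nlinarith
      linarith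
    have h4 : (∑ i, n (Θ i) : ℤ) = m * p * round b := by
      have : |(∑ i, n (Θ i) : ℤ) - (m * p * round b : ℤ)| < 1 := by exact_mod_cast h3
      rw [Int.abs_lt_one_iff] at this
      linarith
    rw [hξ]
    simp only
    rw [← Int.cast_sum, h4]
    push_cast
    rw [ZMod.natCast_self]
    ring
  -- spectral side
  rw [spec_d]
  set F : ZMod K → ℝ := fun x => ‖(∑ s ∈ range A, ch K ((s : ZMod K) * x)) / A‖ ^ 2 with hF
  set W : (Fin k → ZMod K) → ℝ := fun Θ => ∏ i, mu f (Θ i) with hW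
  have hW0 : ∀ Θ, 0 ≤ W Θ := fun Θ => prod_nonneg fun i _ => hμ0 _
  have hWs : ∑ Θ, W Θ ≤ 1 := by
    rw [hW, ← Fintype.sum_pow]
    exact pow_le_one₀ (sum_nonneg fun θ _ => hμ0 θ) hμ1
  have hterm : ∀ Θ, W Θ * F (∑ i, Θ i) ≤ W Θ * (1 / (4 * (A : ℝ) ^ 2 * w ^ 2)) +
      ∑ i, (if Θ i ∉ U ∧ N (∑ j, Θ j) ≤ w then W Θ else 0) +
      (if (∀ i, Θ i ∈ U) ∧ ∑ i, ξ (Θ i) = 0 then W Θ else 0) := by
    intro Θ
    have hA0 : (0 : ℝ) < A := by exact_mod_cast hA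
    have p1 : 0 ≤ W Θ * (1 / (4 * (A : ℝ) ^ 2 * w ^ 2)) := mul_nonneg (hW0 Θ) (by positivity)
    have p2 : ∀ i ∈ (univ : Finset (Fin k)), 0 ≤ (if Θ i ∉ U ∧ N (∑ j, Θ j) ≤ w then W Θ else 0) := by
      intro i _
      split_ifs
      · exact hW0 Θ
      · exact le_rfl
    have p3 : 0 ≤ (if (∀ i, Θ i ∈ U) ∧ ∑ i, ξ (Θ i) = 0 then W Θ else 0) := by
      split_ifs
      · exact hW0 Θ
      · exact le_rfl
    have p4 := sum_nonneg p2
    by_cases h1 : N (∑ i, Θ i) ≤ w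
    · have h2 : W Θ * F (∑ i, Θ i) ≤ W Θ := by
        have := mul_le_mul_of_nonneg_left (fejer_le A (∑ i, Θ i)) (hW0 Θ)
        rw [mul_one] at this
        exact this
      by_cases h3 : ∀ i, Θ i ∈ U
      · rw [if_pos ⟨h3, hsum Θ h3 h1⟩]
        linarith
      · push Not at h3
        obtain ⟨i, hi⟩ := h3
        have h4 := single_le_sum p2 (mem_univ i)
        rw [if_pos ⟨hi, h1⟩] at h4
        linarith
    · have h2 : W Θ * F (∑ i, Θ i) ≤ W Θ * (1 / (4 * (A : ℝ) ^ 2 * w ^ 2)) :=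
        mul_le_mul_of_nonneg_left (fejer_tail A hA _ w hw (not_le.1 h1)) (hW0 Θ)
      linarith
  set P : ℝ := ∑ Θ : Fin k → ZMod K, (if (∀ i, Θ i ∈ U) ∧ ∑ i, ξ (Θ i) = 0 then W Θ else 0) with hP
  have hP0 : 0 ≤ P := sum_nonneg fun Θ _ => by
    split_ifs
    · exact hW0 Θ
    · exact le_rfl
  have hP1 : P ≤ 1 := by
    refine le_trans ?_ hWs
    apply sum_le_sum
    intro Θ _
    split_ifs
    · exact le_rfl
    · exact hW0 Θ
  have hstep1 : ∑ Θ : Fin k → ZMod K, W Θ * F (∑ i, Θ i) ≤ 1 / (4 * (A : ℝ) ^ 2 * w ^ 2) + k * η + P := by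
    refine (sum_le_sum fun Θ _ => hterm Θ).trans ?_
    rw [sum_add_distrib, sum_add_distrib, ← sum_mul, sum_comm (s := univ) (t := univ)]
    have hWc : (∑ Θ, W Θ) * (1 / (4 * (A : ℝ) ^ 2 * w ^ 2)) ≤ 1 / (4 * (A : ℝ) ^ 2 * w ^ 2) :=
      mul_le_of_le_one_left (by positivity) hWs
    have h1 : ∑ i : Fin k, ∑ Θ : Fin k → ZMod K, (if Θ i ∉ U ∧ N (∑ j, Θ j) ≤ w then W Θ else 0) ≤ k * η := by
      have h2 : ∀ i ∈ (univ : Finset (Fin k)), ∑ Θ : Fin k → ZMod K, (if Θ i ∉ U ∧ N (∑ j, Θ j) ≤ w then W Θ else 0) ≤ η := by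
        intro i _
        refine bad_le' (mu f) hμ0 hμ1 w η hη.le U ?_ k i
        intro x hx
        rw [hU, mem_filter] at hx
        push Not at hx
        exact (hx (mem_univ _)).le
      refine (sum_le_sum h2).trans (le_of_eq ?_)
      rw [sum_const, card_univ, Fintype.card_fin, nsmul_eq_mul]
    linarith
  -- the comparison with the progressions
  set nu : ZMod p → ℝ := fun x => (∑ y, mu (gy (p := p) f m y) x) / K with hnu
  have hconv := conv (fun j => (∑ y, R (gy (p := p) f m y) j) / K) nu (fun j => rbar_spec f m j) k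
  set c : ℝ := (1 - 2 * Real.pi * (2 / Q)) ^ 2 with hc
  have hpiQ : 2 * Real.pi * (2 / Q) ≤ 13 / Q := by
    rw [show 2 * Real.pi * (2 / (Q : ℝ)) = (4 * Real.pi) / Q by ring]
    have := Real.pi_lt_d2
    gcongr
    linarith
  have h13 : (13 : ℝ) / Q ≤ 1 / 2 := by
    rw [div_le_div_iff₀ hQ0 (by norm_num)]
    nlinarith
  have hc0 : 0 ≤ c := sq_nonneg _
  have hGc : ∀ θ ∈ U, c ≤ G K p m θ (ξ θ) := by
    intro θ hθ
    exact G_lower m θ (n θ) (2 / Q) (by linarith) (hUt θ hθ)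
  have hstep2 : c ^ k * P ≤ ∑ Ξ : Fin k → ZMod p, if ∑ i, Ξ i = 0 then ∏ i, nu (Ξ i) else 0 := by
    have h1 : ∀ Ξ : Fin k → ZMod p, ∏ i, nu (Ξ i) = ∑ Θ : Fin k → ZMod K, ∏ i, (mu f (Θ i) * G K p m (Θ i) (Ξ i)) := by
      intro Ξ
      have e1 : ∏ i, nu (Ξ i) = ∏ i, ∑ θ, mu f θ * G K p m θ (Ξ i) := prod_congr rfl fun i _ => nu_eq f m (Ξ i)
      rw [e1, Finset.prod_univ_sum (fun _ : Fin k => (univ : Finset (ZMod K))) (fun i θ => mu f θ * G K p m θ (Ξ i)),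
        Fintype.piFinset_univ]
    have h2 : ∑ Ξ : Fin k → ZMod p, (if ∑ i, Ξ i = 0 then ∏ i, nu (Ξ i) else 0) =
        ∑ Θ : Fin k → ZMod K, ∑ Ξ : Fin k → ZMod p, (if ∑ i, Ξ i = 0 then ∏ i, (mu f (Θ i) * G K p m (Θ i) (Ξ i)) else 0) := by
      rw [sum_comm]
      apply sum_congr rfl
      intro Ξ _
      split_ifs
      · exact h1 Ξ
      · rw [sum_const_zero]
    rw [h2, hP, mul_sum]
    apply sum_le_sum
    intro Θ _
    have h3 : ∀ Ξ ∈ (univ : Finset (Fin k → ZMod p)), 0 ≤ (if ∑ i, Ξ i = 0 then ∏ i, (mu f (Θ i) * G K p m (Θ i) (Ξ i)) else 0) := by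
      intro Ξ _
      split_ifs
      · exact prod_nonneg fun i _ => mul_nonneg (hμ0 _) (G_nonneg _ _ _)
      · exact le_rfl
    by_cases h4 : (∀ i, Θ i ∈ U) ∧ ∑ i, ξ (Θ i) = 0
    · rw [if_pos h4]
      refine le_trans ?_ (single_le_sum h3 (mem_univ (fun i => ξ (Θ i))))
      rw [if_pos h4.2, prod_mul_distrib, mul_comm]
      apply mul_le_mul_of_nonneg_left _ (hW0 Θ)
      calc c ^ k = ∏ _i : Fin k, c := by rw [prod_const, card_univ, Fintype.card_fin]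
        _ ≤ _ := prod_le_prod (fun _ _ => hc0) fun i _ => hGc _ (h4.1 i)
    · rw [if_neg h4, mul_zero]
      exact sum_nonneg h3
  rw [← hconv] at hstep2
  have hck : 1 - 26 * k / Q ≤ c ^ k := by
    have h1 : 1 - 13 / (Q : ℝ) ≤ 1 - 2 * Real.pi * (2 / Q) := by linarith
    have h2 : (1 - 13 / (Q : ℝ)) ^ (2 * k) ≤ c ^ k := by
      rw [hc, ← pow_mul]
      exact pow_le_pow_left₀ (by linarith) h1 _
    have h3 : (-2 : ℝ) ≤ -(13 / (Q : ℝ)) := by linarith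
    have h4 := one_add_mul_le_pow h3 (2 * k)
    rw [← sub_eq_add_neg] at h4
    push_cast at h4
    have h5 : 1 + 2 * (k : ℝ) * -(13 / Q) = 1 - 26 * k / Q := by ring
    rw [h5] at h4
    linarith
  have hfin : P ≤ c ^ k * P + 26 * k / Q := by
    have h1 : (1 - c ^ k) * P ≤ 26 * k / Q * 1 := by
      apply mul_le_mul (by linarith) hP1 hP0 (by positivity)
    linarith
  linarith

end main

end Pool.Agent.R509.PQ
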