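import Pool.Agent.R509.CE.Half

/-!
Library R509.PQ (helper509): the autocorrelations of sets of given density in a cyclic group of prime order
(Cauchy-Davenport).
-/

set_option autoImplicit false

namespace Pool.Agent.R509.PQ

open Finset
open scoped Pointwise
open Pool.Agent.R509.CD (dd repr pow_lip)
open Pool.Agent.R509.CE (pow_tel)

section cyc

variable {p : ℕ} [Fact p.Prime]

open Classical in
/-- the number of elements which leave the set -/
noncomputable def t (G : Finset (ZMod p)) (h : ZMod p) : ℕ := (G.filter (fun x => x + h ∉ G)).card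

open Classical in
/-- the number of elements which stay in the set -/
noncomputable def xx (G : Finset (ZMod p)) (h : ZMod p) : ℕ := (G.filter (fun x => x + h ∈ G)).card

open Classical in
/-- the shifts for which few elements leave -/
noncomputable def A (G : Finset (ZMod p)) (s : ℕ) : Finset (ZMod p) := univ.filter (fun h => t G h ≤ s)

lemma t_add_xx (G : Finset (ZMod p)) (h : ZMod p) : xx G h + t G h = G.card := by
  classical
  unfold xx t
  exact card_filter_add_card_filter_not (fun x => x + h ∈ G)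

lemma t_le (G : Finset (ZMod p)) (h : ZMod p) : t G h ≤ G.card := by
  have := t_add_xx G h
  omega

lemma t_zero (G : Finset (ZMod p)) : t G 0 = 0 := by
  classical
  unfold t
  rw [card_eq_zero, filter_eq_empty_iff]
  intro x hx
  simpa using hx

lemma t_add (G : Finset (ZMod p)) (h h' : ZMod p) : t G (h + h') ≤ t G h + t G h' := by
  classical
  unfold t
  have h1 : (G.filter (fun x => x + (h + h') ∉ G)) ⊆
      (G.filter (fun x => x + h ∉ G)) ∪ ((G.filter (fun x => x + h' ∉ G)).image (fun x => x - h)) := by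
    intro x hx
    rw [mem_filter] at hx
    rw [mem_union, mem_filter, mem_image]
    by_cases hc : x + h ∈ G
    · right
      refine ⟨x + h, mem_filter.2 ⟨hc, ?_⟩, by ring⟩
      rw [add_assoc]
      exact hx.2
    · left
      exact ⟨hx.1, hc⟩
  refine (card_le_card h1).trans ((card_union_le _ _).trans ?_)
  exact Nat.add_le_add_left card_image_le _

lemma A_nonempty (G : Finset (ZMod p)) (s : ℕ) : (A G s).Nonempty := by
  classical
  refine ⟨0, ?_⟩
  unfold A
  rw [mem_filter, t_zero]
  exact ⟨mem_univ _, Nat.zero_le _⟩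

lemma A_card_le (G : Finset (ZMod p)) (s : ℕ) : (A G s).card ≤ p := by
  classical
  unfold A
  refine (card_filter_le _ _).trans ?_
  rw [card_univ, ZMod.card]

lemma A_mono (G : Finset (ZMod p)) {s s' : ℕ} (hst : s ≤ s') : (A G s).card ≤ (A G s').card := by
  classical
  apply card_le_card
  intro h hh
  unfold A at hh ⊢
  rw [mem_filter] at hh ⊢
  exact ⟨hh.1, hh.2.trans hst⟩

lemma cd (G : Finset (ZMod p)) (i j : ℕ) (h : (A G (i + j)).card < p) :
    (A G i).card + (A G j).card ≤ (A G (i + j)).card + 1 := by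
  classical
  have h1 := ZMod.cauchy_davenport (Fact.out : p.Prime) (A_nonempty G i) (A_nonempty G j)
  have h2 : (A G i + A G j).card ≤ (A G (i + j)).card := by
    apply card_le_card
    intro x hx
    rw [mem_add] at hx
    obtain ⟨y, hy, z, hz, rfl⟩ := hx
    unfold A at hy hz ⊢
    rw [mem_filter] at hy hz ⊢
    exact ⟨mem_univ _, (t_add G y z).trans (Nat.add_le_add hy.2 hz.2)⟩
  have h3 : 0 < (A G i).card := card_pos.2 (A_nonempty G i)
  rcases min_le_iff.1 (h1.trans h2) with h4 | h4 <;> omega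

/-- partial sums -/
noncomputable def T (G : Finset (ZMod p)) (s : ℕ) : ℝ := ∑ i ∈ range s, ((A G i).card : ℝ)

lemma T_eq (G : Finset (ZMod p)) (s : ℕ) : T G s = ∑ h, ((s - t G h : ℕ) : ℝ) := by
  classical
  unfold T
  have h1 : ∀ i ∈ range s, ((A G i).card : ℝ) = ∑ h, if t G h ≤ i then (1 : ℝ) else 0 := by
    intro i _
    unfold A
    rw [sum_boole]
  rw [sum_congr rfl h1, sum_comm]
  apply sum_congr rfl
  intro h _
  rw [sum_boole]
  congr 1
  have h2 : (range s).filter (fun i => t G h ≤ i) = Ico (t G h) s := by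
    ext i
    simp only [mem_filter, mem_range, mem_Ico]
    tauto
  rw [h2, Nat.card_Ico]

lemma sum_xx (G : Finset (ZMod p)) : ∑ h, (xx G h : ℝ) = (G.card : ℝ) ^ 2 := by
  classical
  have h1 : ∀ h, (xx G h : ℝ) = ∑ x ∈ G, if x + h ∈ G then (1 : ℝ) else 0 := by
    intro h
    unfold xx
    rw [sum_boole]
  rw [sum_congr rfl fun h _ => h1 h, sum_comm]
  have h2 : ∀ x ∈ G, ∑ h, (if x + h ∈ G then (1 : ℝ) else 0) = G.card := by
    intro x _
    rw [Fintype.sum_equiv (Equiv.addLeft x) (fun h => if x + h ∈ G then (1 : ℝ) else 0)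
      (fun y => if y ∈ G then (1 : ℝ) else 0) (fun h => rfl), sum_boole]
    congr 1
    rw [filter_mem_eq_inter, univ_inter]
  rw [sum_congr rfl h2, sum_const, nsmul_eq_mul, sq]

lemma T_top (G : Finset (ZMod p)) : T G G.card = (G.card : ℝ) ^ 2 := by
  rw [T_eq, ← sum_xx]
  apply sum_congr rfl
  intro h _
  congr 1
  have := t_add_xx G h
  omega

/-- domination of the partial sums -/
lemma T_le (G : Finset (ZMod p)) (hG : 2 * G.card ≤ p) (j : ℕ) (hj : j ≤ G.card) : T G j ≤ (j : ℝ) ^ 2 := by
  classical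
  obtain ⟨d, hd⟩ : ∃ d, j + d = G.card := ⟨G.card - j, by omega⟩
  induction d generalizing j with
  | zero =>
    have : j = G.card := by omega
    rw [this, T_top]
  | succ d ih =>
    have h1 := ih (j + 1) (by omega) (by omega)
    have h3 : T G (j + 1) = T G j + ((A G j).card : ℝ) := by
      unfold T
      rw [sum_range_succ]
    rcases Nat.eq_zero_or_pos j with h0 | h0
    · subst h0
      unfold T
      simp
    rcases (A_card_le G j).lt_or_eq with h | h
    · have h2 : 2 * T G (j + 1) ≤ ∑ i ∈ range (j + 1), (((A G j).card : ℝ) + 1) := by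
        have h2 : 2 * T G (j + 1) = ∑ i ∈ range (j + 1), (((A G i).card : ℝ) + ((A G (j - i)).card : ℝ)) := by
          rw [sum_add_distrib]
          have h3 : ∑ i ∈ range (j + 1), ((A G (j - i)).card : ℝ) = T G (j + 1) := by
            unfold T
            have := sum_range_reflect (fun i => ((A G i).card : ℝ)) (j + 1)
            rw [← this]
            apply sum_congr rfl
            intro i _
            simp
          rw [h3]
          unfold T
          ring
        rw [h2]
        apply sum_le_sum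
        intro i hi
        rw [mem_range] at hi
        have h4 : i + (j - i) = j := by omega
        have h5 := cd G i (j - i) (by rw [h4]; exact h)
        rw [h4] at h5
        exact_mod_cast h5
      rw [sum_const, card_range, nsmul_eq_mul] at h2
      push_cast at h1 h2
      have h4 : ((A G j).card : ℝ) = T G (j + 1) - T G j := by linarith
      rw [h4] at h2
      set U := T G (j + 1)
      set V := T G j
      have hj1 : (1 : ℝ) ≤ j := by exact_mod_cast h0
      have h5 : ((j : ℝ) + 1) * V ≤ (j - 1) * U + (j + 1) := by nlinarith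
      have h6 : ((j : ℝ) - 1) * U ≤ (j - 1) * (j + 1) ^ 2 := mul_le_mul_of_nonneg_left h1 (by linarith)
      have h7 : ((j : ℝ) + 1) * V ≤ (j + 1) * j ^ 2 := by nlinarith
      exact le_of_mul_le_mul_left h7 (by linarith)
    · have h1 : T G G.card = T G j + ∑ i ∈ Ico j G.card, ((A G i).card : ℝ) := by
        unfold T
        rw [sum_range_add_sum_Ico _ (by omega)]
      have h2 : ∑ i ∈ Ico j G.card, ((A G i).card : ℝ) = ((G.card : ℝ) - j) * p := by
        rw [sum_congr rfl (g := fun _ => (p : ℝ)) (by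
          intro i hi
          rw [mem_Ico] at hi
          have := A_mono G (by omega : j ≤ i)
          have h3 := A_card_le G i
          have : (A G i).card = p := by omega
          rw [this]), sum_const, Nat.card_Ico, nsmul_eq_mul, Nat.cast_sub (by omega)]
      rw [T_top, h2] at h1
      have h4 : (j : ℝ) ≤ G.card := by exact_mod_cast (by omega : j ≤ G.card)
      have h5 : 2 * (G.card : ℝ) ≤ p := by exact_mod_cast hG
      have h6 : 0 ≤ ((G.card : ℝ) - j) * (p - (G.card + j)) := mul_nonneg (by linarith) (by linarith)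
      nlinarith

/-- the moments for sets of density at most one half -/
lemma mom_small (G : Finset (ZMod p)) (hG : 2 * G.card ≤ p) (k : ℕ) (hk : 1 ≤ k) :
    ∑ h, ((xx G h : ℝ)) ^ k ≤ 2 * ((G.card : ℝ) ^ (k + 1) / (k + 1)) + (G.card : ℝ) ^ k := by
  classical
  set s := G.card with hs
  rcases Nat.eq_zero_or_pos s with h0 | h0
  · have : ∀ h, (xx G h : ℝ) ^ k = 0 := by
      intro h
      have h1 := t_add_xx G h
      have h2 : xx G h = 0 := by omega
      rw [h2, Nat.cast_zero, zero_pow (by omega)]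
    rw [sum_congr rfl fun h _ => this h, sum_const_zero]
    positivity
  obtain ⟨n, hn⟩ : ∃ n, s = n + 1 := ⟨s - 1, by omega⟩
  set ψ : ℕ → ℝ := fun d => ((s : ℝ) - d) ^ k with hψ
  have hψs : ψ (n + 1) = 0 := by
    rw [hψ]
    simp only
    rw [← hn, sub_self, zero_pow (by omega)]
  have hnr : ((n : ℝ) + 1) = s := by rw [hn]; push_cast; ring
  have hdd : ∀ u ∈ range n, 0 ≤ dd ψ u := by
    intro u hu
    rw [mem_range] at hu
    have hu' : (u : ℝ) + 2 ≤ s := by rw [← hnr]; exact_mod_cast (by omega : u + 2 ≤ n + 1)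
    have hc := (convexOn_pow (𝕜 := ℝ) k).2 (x := (s : ℝ) - ((u + 2 : ℕ) : ℝ)) (y := (s : ℝ) - u)
      (by simp only [Set.mem_Ici]; push_cast; linarith) (by simp only [Set.mem_Ici]; linarith)
      (by norm_num : (0 : ℝ) ≤ 1 / 2) (by norm_num : (0 : ℝ) ≤ 1 / 2) (by norm_num)
    simp only [smul_eq_mul] at hc
    have e1 : 1 / 2 * ((s : ℝ) - ((u + 2 : ℕ) : ℝ)) + 1 / 2 * ((s : ℝ) - u) = (s : ℝ) - ((u + 1 : ℕ) : ℝ) := by
      push_cast
      ring
    rw [e1] at hc
    unfold dd
    rw [hψ]
    simp only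
    linarith
  have hrep : ∀ d : ℕ, d ≤ s → ψ d = ((s : ℝ) - d) * ψ n + ∑ u ∈ range n, ((u + 1 - d : ℕ) : ℝ) * dd ψ u := by
    intro d hd
    have := repr ψ n d (by omega)
    rw [hψs, hnr] at this
    rw [this]
    ring
  have h1 : ∑ h, ((xx G h : ℝ)) ^ k = ∑ h, ψ (t G h) := by
    apply sum_congr rfl
    intro h _
    rw [hψ]
    simp only
    congr 1
    have := t_add_xx G h
    rw [← hs] at this
    have h2 : ((xx G h : ℝ)) + t G h = s := by exact_mod_cast this
    linarith
  have h2 : ∑ h, ψ (t G h) = (s : ℝ) ^ 2 * ψ n + ∑ u ∈ range n, T G (u + 1) * dd ψ u := by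
    rw [sum_congr rfl fun h _ => hrep (t G h) (t_le G h), sum_add_distrib, ← sum_mul, sum_comm]
    congr 1
    · congr 1
      rw [← sum_xx]
      apply sum_congr rfl
      intro h _
      have := t_add_xx G h
      rw [← hs] at this
      have h2 : ((xx G h : ℝ)) + t G h = s := by exact_mod_cast this
      linarith
    · apply sum_congr rfl
      intro u _
      rw [T_eq, sum_mul]
  have h3 : ∑ u ∈ range n, T G (u + 1) * dd ψ u ≤ ∑ u ∈ range n, ((u : ℝ) + 1) ^ 2 * dd ψ u := by
    apply sum_le_sum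
    intro u hu
    have hu2 := mem_range.1 hu
    have := T_le G (by rw [← hs]; exact hG) (u + 1) (by omega)
    push_cast at this
    exact mul_le_mul_of_nonneg_right this (hdd u hu)
  -- the model
  have hmod : ∀ m : ℕ, m ≤ n → ((m : ℝ) + 1) ^ 2 = ((m : ℝ) + 1) + 2 * ∑ d ∈ range n, ((m + 1 - (d + 1) : ℕ) : ℝ) := by
    intro m hm
    have e1 : ∀ q : ℕ, q ≤ n → ∑ d ∈ range n, ((q - d : ℕ) : ℝ) = (q : ℝ) * (q + 1) / 2 := by
      intro q hq
      have e2 : ∑ d ∈ range n, ((q - d : ℕ) : ℝ) = ∑ d ∈ range q, ((q - d : ℕ) : ℝ) := by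
        refine (sum_subset (fun i hi => mem_range.2 (lt_of_lt_of_le (mem_range.1 hi) hq)) ?_).symm
        intro d _ hd
        rw [mem_range] at hd
        have : (q - d : ℕ) = 0 := by omega
        rw [this, Nat.cast_zero]
      rw [e2]
      clear e2 hq
      induction q with
      | zero => simp
      | succ q ih =>
        rw [sum_range_succ']
        have : ∀ d ∈ range q, ((q + 1 - (d + 1) : ℕ) : ℝ) = ((q - d : ℕ) : ℝ) := fun d _ => by
          congr 1
          omega
        rw [sum_congr rfl this, ih]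
        push_cast
        try simp only [Nat.sub_zero]
        push_cast
        ring
    have e3 : ∀ d ∈ range n, ((m + 1 - (d + 1) : ℕ) : ℝ) = ((m - d : ℕ) : ℝ) := fun d _ => by
      congr 1
      omega
    rw [sum_congr rfl e3, e1 m hm]
    ring
  have h4 : (s : ℝ) ^ 2 * ψ n + ∑ u ∈ range n, ((u : ℝ) + 1) ^ 2 * dd ψ u = ψ 0 + 2 * ∑ d ∈ range n, ψ (d + 1) := by
    have e1 : ∀ d ∈ range n, ψ (d + 1) = ((s : ℝ) - ((d + 1 : ℕ) : ℝ)) * ψ n +
        ∑ u ∈ range n, ((u + 1 - (d + 1) : ℕ) : ℝ) * dd ψ u := by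
      intro d hd
      rw [mem_range] at hd
      exact hrep (d + 1) (by omega)
    rw [hrep 0 (by omega), sum_congr rfl e1, sum_add_distrib, ← sum_mul, sum_comm, mul_add]
    have e2 : ∑ u ∈ range n, ((u : ℝ) + 1) ^ 2 * dd ψ u = ∑ u ∈ range n, ((u + 1 - 0 : ℕ) : ℝ) * dd ψ u +
        2 * ∑ u ∈ range n, ∑ d ∈ range n, ((u + 1 - (d + 1) : ℕ) : ℝ) * dd ψ u := by
      rw [mul_sum, ← sum_add_distrib]
      apply sum_congr rfl
      intro u hu
      rw [mem_range] at hu
      rw [hmod u (by omega), ← sum_mul]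
      simp only [Nat.sub_zero]
      push_cast
      ring
    have e3 : (s : ℝ) ^ 2 = (s : ℝ) + 2 * ∑ d ∈ range n, ((s : ℝ) - ((d + 1 : ℕ) : ℝ)) := by
      have e4 := hmod n le_rfl
      rw [hnr] at e4
      rw [e4]
      congr 2
      apply sum_congr rfl
      intro d hd
      rw [mem_range] at hd
      rw [Nat.cast_sub (by omega), ← hnr]
      push_cast
      ring
    rw [e2, e3]
    push_cast
    ring
  have h5 : ∑ d ∈ range n, ψ (d + 1) ≤ (s : ℝ) ^ (k + 1) / (k + 1) := by
    have e1 : ∀ d ∈ range n, ((k : ℝ) + 1) * ψ (d + 1) ≤ ((s : ℝ) - d) ^ (k + 1) - ((s : ℝ) - ((d + 1 : ℕ) : ℝ)) ^ (k + 1) := by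
      intro d hd
      rw [mem_range] at hd
      have hd1 : (d : ℝ) + 1 ≤ s := by rw [← hnr]; exact_mod_cast (by omega : d + 1 ≤ n + 1)
      have := pow_tel ((s : ℝ) - d) ((s : ℝ) - ((d + 1 : ℕ) : ℝ)) (by push_cast; linarith) (by push_cast; linarith) k
      have e2 : ((s : ℝ) - d) - ((s : ℝ) - ((d + 1 : ℕ) : ℝ)) = 1 := by push_cast; ring
      rw [e2, mul_one] at this
      exact this
    have e3 := sum_le_sum e1
    rw [← mul_sum, sum_range_sub' (fun d : ℕ => ((s : ℝ) - d) ^ (k + 1))] at e3
    have e4 : 0 ≤ ((s : ℝ) - n) ^ (k + 1) := by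
      apply pow_nonneg
      rw [← hnr]
      linarith
    rw [le_div_iff₀ (by positivity)]
    simp only [Nat.cast_zero, sub_zero] at e3
    linarith
  have h6 : ψ 0 = (s : ℝ) ^ k := by
    rw [hψ]
    simp
  rw [h1, h2]
  rw [h6] at h4
  linarith

end cyc

end Pool.Agent.R509.PQ
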