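import Pool.Agent.R509.PQ.Seq

/-!
Library R509.PQ (helper509): moments of the local autocorrelations of a set of given density.
-/

set_option autoImplicit false

namespace Pool.Agent.R509.PQ

open Finset
open Pool.Agent.R509.CD

theorem gen3 (k : ℕ) (hk : 1 ≤ k) (ε : ℝ) (hε : 0 < ε) :
    ∃ M p₁ : ℕ, 1 ≤ M ∧ ∀ p : ℕ, p.Prime → p₁ ≤ p → ∃ C : ℕ, 1 ≤ C ∧
      ∀ f : ℕ → ℝ, (∀ n, f n = 0 ∨ f n = 1) → ∀ α : ℝ, 0 ≤ α → α ≤ 1 / 2 → ∀ H X : ℕ, C ≤ H → C * H ≤ X →
      ∑ n ∈ range X, ∑ a ∈ Icc 1 H, S f H n a ^ k ≤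
        (Ik k α + ε) * X * H + 2 * k * H * ∑ m ∈ Icc 1 M, ∑ n ∈ range X, |avn f m p n - α| := by
  have hk0 : (0 : ℝ) ≤ k := Nat.cast_nonneg k
  -- parameters
  set δ : ℝ := ε / (12 * (k + 1)) with hδ
  have hδ0 : 0 < δ := by positivity
  obtain ⟨N0, hN0⟩ := exists_nat_ge (1 / δ)
  obtain ⟨q1, hq1⟩ := exists_nat_ge (26 / δ)
  set Q : ℕ := 26 * (k + 1) + q1 with hQ
  have hQ26 : 26 * (k + 1) ≤ Q := by omega
  have hQ0 : (0 : ℝ) < Q := by
    have : 0 < Q := by omega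
    exact_mod_cast this
  have hQδ : 26 / (Q : ℝ) ≤ δ := by
    rw [div_le_iff₀ hQ0]
    rw [div_le_iff₀ hδ0] at hq1
    have : (q1 : ℝ) ≤ Q := by exact_mod_cast (by omega : q1 ≤ Q)
    nlinarith
  set M : ℕ := Q ^ N0 with hM
  have hM1 : 1 ≤ M := Nat.one_le_pow _ _ (by omega)
  have hM0 : (0 : ℝ) < M := by exact_mod_cast hM1
  have hMr : (Q : ℝ) ^ N0 = M := by rw [hM]; push_cast; rfl
  obtain ⟨p1, hp1⟩ := exists_nat_ge ((2 * k + 1 : ℝ) / δ)
  refine ⟨M, p1 + 1, hM1, fun p hprime hpp => ?_⟩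
  have : Fact p.Prime := ⟨hprime⟩
  have hp0 : (0 : ℝ) < p := by exact_mod_cast hprime.pos
  have hpδ : (2 * k + 1) / (p : ℝ) ≤ δ := by
    rw [div_le_iff₀ hp0]
    rw [div_le_iff₀ hδ0] at hp1
    have : (p1 : ℝ) ≤ p := by exact_mod_cast (by omega : p1 ≤ p)
    nlinarith
  set w : ℝ := 1 / (4 * (M * p) * Q) with hw
  have hw0 : 0 < w := by positivity
  have hw2 : 4 * ((Q : ℝ) ^ N0 * p) * w ≤ 1 / Q := by
    rw [hMr, hw]
    apply le_of_eq
    field_simp
  obtain ⟨A', hA'⟩ := exists_nat_ge ((1 / δ + 1) / w)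
  set A : ℕ := A' + 1 with hA
  have hA1 : 1 ≤ A := by omega
  have hA0 : (0 : ℝ) < A := by exact_mod_cast hA1
  have hAw : 1 / (4 * (A : ℝ) ^ 2 * w ^ 2) ≤ δ := by
    rw [div_le_iff₀ (by positivity)]
    rw [div_le_iff₀ hw0] at hA'
    have h1 : (A' : ℝ) ≤ A := by exact_mod_cast (by omega : A' ≤ A)
    have h2 : 1 / δ + 1 ≤ A * w := hA'.trans (mul_le_mul_of_nonneg_right h1 hw0.le)
    have h3 : 0 < 1 / δ := by positivity
    have h4 : (1 / δ + 1) * 1 ≤ (A * w) * (A * w) := mul_le_mul h2 (by linarith) zero_le_one (by positivity)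
    have h5 : δ * (1 / δ) = 1 := by field_simp
    nlinarith
  obtain ⟨K', hK'⟩ := exists_nat_ge (2 * A / δ + M * (M * p) / δ)
  set K : ℕ := K' + A + M * p with hK
  have hAK : A ≤ K := by omega
  have hpK : M * p ≤ K := by omega
  have hK0 : (0 : ℝ) < K := by
    have : 0 < K := by omega
    exact_mod_cast this
  have hKK : 2 * A / δ + M * (M * p) / δ ≤ K := hK'.trans (by exact_mod_cast (by omega : K' ≤ K))
  have hKa : 2 * (A : ℝ) / K ≤ δ := by
    rw [div_le_iff₀ hK0]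
    have h1 : 2 * (A : ℝ) / δ ≤ K := by
      have : (0 : ℝ) ≤ M * (M * p) / δ := by positivity
      linarith
    rw [div_le_iff₀ hδ0] at h1
    linarith
  have hKm : (M : ℝ) * (M * p / K) ≤ δ := by
    have h1 : (M : ℝ) * (M * p) / δ ≤ K := by
      have : (0 : ℝ) ≤ 2 * A / δ := by positivity
      linarith
    rw [div_le_iff₀ hδ0] at h1
    rw [← mul_div_assoc, div_le_iff₀ hK0]
    linarith
  obtain ⟨C', hC'⟩ := exists_nat_ge (2 * K / δ + A / δ + M * K / δ + 2 / δ)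
  set C : ℕ := C' + 1 with hC
  refine ⟨C, by omega, fun f hf α hα0 hα1 H X hH hX => ?_⟩
  have hCC : 2 * K / δ + A / δ + M * K / δ + 2 / δ ≤ C := hC'.trans (by exact_mod_cast (by omega : C' ≤ C))
  have hH1 : 1 ≤ H := by omega
  have hCX : C ≤ X := (Nat.le_mul_of_pos_right C (by omega)).trans hX
  have hHr : (C : ℝ) ≤ H := by exact_mod_cast hH
  have hXr : (C : ℝ) * H ≤ X := by exact_mod_cast hX
  have hCXr : (C : ℝ) ≤ X := by exact_mod_cast hCX
  have hH0 : (0 : ℝ) < H := by exact_mod_cast hH1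
  have hX0 : (0 : ℝ) < X := by
    have : 0 < X := by omega
    exact_mod_cast this
  have g1 : (0 : ℝ) ≤ 2 * K / δ := by positivity
  have g2 : (0 : ℝ) ≤ A / δ := by positivity
  have g3 : (0 : ℝ) ≤ M * K / δ := by positivity
  have g4 : (0 : ℝ) ≤ 2 / δ := by positivity
  have key := seq3 (f := f) (k0 := k) hf hk α hα0 hα1 Q N0 A K H X p hQ26 δ w hδ0 hN0 hw0 hw2 hA1 hAK hpK hH1
  rw [hMr] at key
  have hXH : (0 : ℝ) < X * H := by positivity
  -- the error terms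
  have t1 : (X : ℝ) * H * (Ik k α + 1 / (4 * (A : ℝ) ^ 2 * w ^ 2) + k * δ + 26 * k / Q + (2 * k + 1) / p) ≤
      X * H * (Ik k α + δ + k * δ + k * δ + δ) := by
    apply mul_le_mul_of_nonneg_left _ hXH.le
    have e1 : 26 * (k : ℝ) / Q ≤ k * δ := by
      have : 26 * (k : ℝ) / Q = k * (26 / Q) := by ring
      rw [this]
      exact mul_le_mul_of_nonneg_left hQδ hk0
    linarith
  have t3 : 2 * (k : ℝ) * H * M * (K + X * (M * p / K)) ≤ X * H * (2 * (k * δ) + 2 * (k * δ)) := by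
    have e1 : (M : ℝ) * K ≤ X * δ := by
      have : (M : ℝ) * K / δ ≤ X := by linarith
      rwa [div_le_iff₀ hδ0] at this
    have e2 : (M : ℝ) * (X * (M * p / K)) ≤ X * δ := by
      have := mul_le_mul_of_nonneg_left hKm hX0.le
      linarith
    have e3 : 2 * (k : ℝ) * H * M * (K + X * (M * p / K)) = (2 * k * H) * (M * K + M * (X * (M * p / K))) := by ring
    rw [e3]
    have := mul_le_mul_of_nonneg_left (add_le_add e1 e2) (by positivity : (0 : ℝ) ≤ 2 * k * H)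
    linarith
  have t4 : (X : ℝ) * H * (k * (2 * A / K)) ≤ X * H * (k * δ) := by
    apply mul_le_mul_of_nonneg_left _ hXH.le
    exact mul_le_mul_of_nonneg_left hKa hk0
  have t5 : (2 : ℝ) * H * H ≤ X * H * δ := by
    have e1 : 2 / δ * H ≤ X := by
      have : 2 / δ * H ≤ C * H := mul_le_mul_of_nonneg_right (by linarith) hH0.le
      linarith
    have e2 : 2 * (H : ℝ) ≤ X * δ := by
      have := mul_le_mul_of_nonneg_right e1 hδ0.le
      have e3 : 2 / δ * H * δ = 2 * H := by field_simp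
      linarith
    have e4 := mul_le_mul_of_nonneg_right e2 hH0.le
    linarith
  have t6 : (A : ℝ) * (H + X) ≤ X * H * (δ + δ) := by
    have e1 : (A : ℝ) ≤ X * δ := by
      have : (A : ℝ) / δ ≤ X := by linarith
      rwa [div_le_iff₀ hδ0] at this
    have e2 : (A : ℝ) ≤ H * δ := by
      have : (A : ℝ) / δ ≤ H := by linarith
      rwa [div_le_iff₀ hδ0] at this
    have e3 := mul_le_mul_of_nonneg_right e1 hH0.le
    have e4 := mul_le_mul_of_nonneg_right e2 hX0.le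
    linarith
  have t7 : (X : ℝ) * H * (k * (2 * K / H)) ≤ X * H * (k * δ) := by
    apply mul_le_mul_of_nonneg_left _ hXH.le
    apply mul_le_mul_of_nonneg_left _ hk0
    rw [div_le_iff₀ hH0]
    have : 2 * (K : ℝ) / δ ≤ H := by linarith
    rw [div_le_iff₀ hδ0] at this
    linarith
  have hfin : X * H * (Ik k α + δ + k * δ + k * δ + δ) + (X * H * (2 * (k * δ) + 2 * (k * δ)) + X * H * (k * δ) +
      X * H * δ + X * H * (δ + δ) + X * H * (k * δ)) ≤ (Ik k α + ε) * X * H := by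
    have e1 : 8 * (k * δ) + 5 * δ ≤ ε := by
      rw [hδ]
      have : 8 * ((k : ℝ) * (ε / (12 * (k + 1)))) + 5 * (ε / (12 * (k + 1))) = ε * ((8 * k + 5) / (12 * (k + 1))) := by
        field_simp
      rw [this]
      have : (8 * (k : ℝ) + 5) / (12 * (k + 1)) ≤ 1 := by
        rw [div_le_one (by positivity)]
        linarith
      nlinarith
    have e2 := mul_le_mul_of_nonneg_left e1 hXH.le
    linarith
  linarith

end Pool.Agent.R509.PQ
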