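import Pool.Agent.R509.PQ.Cyc

/-!
Library R509.PQ (helper509): the moments of the autocorrelations of functions with values `0` and `1`.
-/

set_option autoImplicit false

namespace Pool.Agent.R509.PQ

open Finset
open Pool.Agent.R509.CD (pow_lip)

variable {p : ℕ} [Fact p.Prime]

lemma xx_sub (G G' : Finset (ZMod p)) (h : G' ⊆ G) (a : ZMod p) : xx G a ≤ xx G' a + 2 * (G.card - G'.card) := by
  classical
  unfold xx
  have h1 : (G.filter (fun x => x + a ∈ G)) ⊆
      (G'.filter (fun x => x + a ∈ G')) ∪ ((G \ G') ∪ ((G \ G').image (fun x => x - a))) := by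
    intro x hx
    rw [mem_filter] at hx
    rw [mem_union, mem_union, mem_filter, mem_sdiff, mem_image]
    by_cases h2 : x ∈ G'
    · by_cases h3 : x + a ∈ G'
      · exact Or.inl ⟨h2, h3⟩
      · right; right
        exact ⟨x + a, mem_sdiff.2 ⟨hx.2, h3⟩, by ring⟩
    · right; left
      exact ⟨hx.1, h2⟩
  refine (card_le_card h1).trans ((card_union_le _ _).trans ?_)
  apply Nat.add_le_add_left
  refine (card_union_le _ _).trans ?_
  have h2 : ((G \ G').image (fun x => x - a)).card ≤ (G \ G').card := card_image_le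
  have h3 : (G \ G').card = G.card - G'.card := card_sdiff_of_subset h
  omega

lemma xx_le (G : Finset (ZMod p)) (a : ZMod p) : xx G a ≤ G.card := by
  have := t_add_xx G a
  omega

lemma card_le_p (G : Finset (ZMod p)) : G.card ≤ p := by
  have := card_le_univ G
  rwa [ZMod.card] at this

lemma mom_set (G : Finset (ZMod p)) (k : ℕ) (hk : 1 ≤ k) (α : ℝ) (h0 : 0 ≤ α) (h1 : α ≤ 1 / 2) :
    (∑ h, ((xx G h : ℝ) / p) ^ k) / p ≤ 2 * (α ^ (k + 1) / (k + 1)) + (2 * k + 1) / p + 2 * k * |(G.card : ℝ) / p - α| := by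
  classical
  have hp : 2 ≤ p := (Fact.out : p.Prime).two_le
  have hp0 : (0 : ℝ) < p := by exact_mod_cast (by omega : 0 < p)
  have hk0 : (0 : ℝ) ≤ k := Nat.cast_nonneg k
  set s₀ : ℕ := ⌊α * p⌋₊ with hs₀
  have hs1 : (s₀ : ℝ) ≤ α * p := Nat.floor_le (by positivity)
  have hs2 : α * p < s₀ + 1 := Nat.lt_floor_add_one _
  have hs3 : 2 * s₀ ≤ p := by
    have : (2 : ℝ) * s₀ ≤ p := by nlinarith
    exact_mod_cast this
  have small : ∀ G : Finset (ZMod p), G.card ≤ s₀ → (∑ h, ((xx G h : ℝ) / p) ^ k) / p ≤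
      2 * (α ^ (k + 1) / (k + 1)) + 1 / p := by
    intro G hG
    have h2 := mom_small G (by omega) k hk
    have hGr : (G.card : ℝ) ≤ α * p := le_trans (by exact_mod_cast hG) hs1
    have h3 : ∑ h, ((xx G h : ℝ) / p) ^ k = (∑ h, (xx G h : ℝ) ^ k) / (p : ℝ) ^ k := by
      rw [sum_div]
      exact sum_congr rfl fun h _ => div_pow _ _ _
    rw [h3, div_div, ← pow_succ, div_le_iff₀ (by positivity)]
    refine h2.trans ?_
    have h4 : (G.card : ℝ) ^ (k + 1) ≤ (α * p) ^ (k + 1) := pow_le_pow_left₀ (Nat.cast_nonneg _) hGr _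
    have h5 : (G.card : ℝ) ^ k ≤ (p : ℝ) ^ k := pow_le_pow_left₀ (Nat.cast_nonneg _) (by exact_mod_cast card_le_p G) _
    have h6 : (2 * (α ^ (k + 1) / (k + 1)) + 1 / p) * (p : ℝ) ^ (k + 1) =
        2 * ((α * p) ^ (k + 1) / (k + 1)) + (p : ℝ) ^ k := by
      rw [mul_pow]
      field_simp
      ring
    rw [h6]
    have h7 : (G.card : ℝ) ^ (k + 1) / (k + 1) ≤ (α * p) ^ (k + 1) / (k + 1) :=
      div_le_div_of_nonneg_right h4 (by positivity)
    linarith
  have habs : 0 ≤ |(G.card : ℝ) / p - α| := abs_nonneg _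
  rcases le_or_gt G.card s₀ with h | h
  · have h2 := small G h
    have h3 : 1 / (p : ℝ) ≤ (2 * k + 1) / p := div_le_div_of_nonneg_right (by linarith) hp0.le
    have h4 : 0 ≤ 2 * (k : ℝ) * |(G.card : ℝ) / p - α| := by positivity
    linarith
  · obtain ⟨G', hG', hc⟩ := exists_subset_card_eq h.le
    have h2 := small G' hc.le
    have h3 : ∀ a, ((xx G a : ℝ) / p) ^ k ≤ ((xx G' a : ℝ) / p) ^ k + k * (2 * (|(G.card : ℝ) / p - α| + 1 / p)) := by
      intro a
      have e1 : ((xx G a : ℕ) : ℝ) ≤ xx G' a + 2 * ((G.card : ℝ) - s₀) := by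
        have := xx_sub G G' hG' a
        rw [hc] at this
        have e : ((G.card - s₀ : ℕ) : ℝ) = (G.card : ℝ) - s₀ := Nat.cast_sub h.le
        rw [← e]
        exact_mod_cast this
      have e2 : ((xx G' a : ℝ)) ≤ xx G a ∨ ((xx G a : ℝ)) ≤ xx G' a := le_total _ _
      have b1 : |(xx G a : ℝ) / p| ≤ 1 := by
        rw [abs_of_nonneg (by positivity), div_le_one hp0]
        exact_mod_cast (xx_le G a).trans (card_le_p G)
      have b2 : |(xx G' a : ℝ) / p| ≤ 1 := by
        rw [abs_of_nonneg (by positivity), div_le_one hp0]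
        exact_mod_cast (xx_le G' a).trans (card_le_p G')
      have b3 : 0 ≤ (k : ℝ) * (2 * (|(G.card : ℝ) / p - α| + 1 / p)) := by positivity
      rcases e2 with e2 | e2
      · have h4 := (abs_le.1 (pow_lip _ _ b1 b2 k)).2
        have h5 : |(xx G a : ℝ) / p - (xx G' a : ℝ) / p| ≤ 2 * (|(G.card : ℝ) / p - α| + 1 / p) := by
          rw [← sub_div, abs_of_nonneg (div_nonneg (by linarith) hp0.le)]
          have e3 : ((G.card : ℝ) - s₀) / p ≤ |(G.card : ℝ) / p - α| + 1 / p := by
            have e4 : ((G.card : ℝ) - s₀) / p ≤ ((G.card : ℝ) - (α * p - 1)) / p :=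
              div_le_div_of_nonneg_right (by linarith) hp0.le
            have e5 : ((G.card : ℝ) - (α * p - 1)) / p = ((G.card : ℝ) / p - α) + 1 / p := by
              field_simp
              ring
            rw [e5] at e4
            have := le_abs_self ((G.card : ℝ) / p - α)
            linarith
          have e6 : ((xx G a : ℝ) - xx G' a) / p ≤ (2 * ((G.card : ℝ) - s₀)) / p :=
            div_le_div_of_nonneg_right (by linarith) hp0.le
          rw [mul_div_assoc] at e6
          linarith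
        have h6 := mul_le_mul_of_nonneg_left h5 hk0
        linarith
      · have : ((xx G a : ℝ) / p) ^ k ≤ ((xx G' a : ℝ) / p) ^ k :=
          pow_le_pow_left₀ (by positivity) (div_le_div_of_nonneg_right e2 hp0.le) _
        linarith
    have h4 := sum_le_sum fun a (_ : a ∈ univ) => h3 a
    rw [sum_add_distrib, sum_const, card_univ, ZMod.card, nsmul_eq_mul] at h4
    have h5 := div_le_div_of_nonneg_right h4 hp0.le
    rw [add_div] at h5
    refine h5.trans ?_
    have h6 : (p : ℝ) * ((k : ℝ) * (2 * (|(G.card : ℝ) / p - α| + 1 / p))) / p =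
        2 * k * |(G.card : ℝ) / p - α| + 2 * k / p := by
      field_simp
    rw [h6]
    have h7 : (2 * (k : ℝ) + 1) / p = 2 * k / p + 1 / p := add_div _ _ _
    rw [h7]
    linarith

/-- functions with values `0` and `1` -/
theorem mom (g : ZMod p → ℝ) (hg : ∀ x, g x = 0 ∨ g x = 1) (k : ℕ) (hk : 1 ≤ k) (α : ℝ) (h0 : 0 ≤ α) (h1 : α ≤ 1 / 2) :
    (∑ a, ((∑ x, g x * g (x + a)) / p) ^ k) / p ≤ 2 * (α ^ (k + 1) / (k + 1)) + (2 * k + 1) / p +
      2 * k * |(∑ x, g x) / p - α| := by
  classical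
  set G : Finset (ZMod p) := univ.filter (fun x => g x = 1) with hG
  have hgi : ∀ x, g x = if x ∈ G then 1 else 0 := by
    intro x
    rw [hG]
    simp only [mem_filter, mem_univ, true_and]
    rcases hg x with h | h
    · rw [h, if_neg (by norm_num)]
    · rw [h, if_pos rfl]
  have e1 : ∀ a, ∑ x, g x * g (x + a) = xx G a := by
    intro a
    unfold xx
    rw [← sum_boole, ← sum_subset (subset_univ G) (f := fun x => g x * g (x + a))]
    · apply sum_congr rfl
      intro x hx
      rw [hgi x, if_pos hx, one_mul, hgi]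
    · intro x _ hx
      show g x * g (x + a) = 0
      rw [hgi x, if_neg hx, zero_mul]
  have e2 : ∑ x, g x = G.card := by
    rw [sum_congr rfl fun x _ => hgi x, sum_boole]
    congr 1
    rw [filter_mem_eq_inter, univ_inter]
  rw [sum_congr rfl fun a _ => by rw [e1 a], e2]
  exact mom_set G k hk α h0 h1

end Pool.Agent.R509.PQ
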