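import Pool.Agent.R509.PQ.Gen
import Pool.Agent.Y842.QY.FinW

/-!
Library R509.PQ (helper509): values of `Ω` at the points of prisms.
-/

set_option autoImplicit false

namespace Pool.Agent.R509.PQ

open Finset Filter
open Pool.Agent.R509.CD (S avn shift_abs avg_abs)
open Pool.Agent.Y842.QY (csg Lc mB excW)
open Pool.Agent.Y958.U (LZ)
open Pool.Agent.Helper602.MK (ee)
open ArithmeticFunction (cardFactors)

lemma icc_range {M : Type*} [AddCommMonoid M] (F : ℕ → M) (N : ℕ) : ∑ n ∈ Icc 1 N, F n = ∑ n ∈ range N, F (n + 1) := by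
  induction N with
  | zero => simp
  | succ N ih => rw [sum_Icc_succ_top (by omega), sum_range_succ, ih]

open Classical in
/-- the indicator function of `Ω(n + 1) ∈ A` -/
noncomputable def ff (A : Set ℕ) (n : ℕ) : ℝ := if cardFactors (n + 1) ∈ A then 1 else 0

lemma ff_01 (A : Set ℕ) (n : ℕ) : ff A n = 0 ∨ ff A n = 1 := by
  unfold ff
  split_ifs
  · right; rfl
  · left; rfl

lemma ff_nn (A : Set ℕ) (n : ℕ) : 0 ≤ ff A n := by rcases ff_01 A n with h | h <;> rw [h]; norm_num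

lemma ff_le (A : Set ℕ) (n : ℕ) : ff A n ≤ 1 := by rcases ff_01 A n with h | h <;> rw [h]; norm_num

/-- the proportion of `1 ≤ n ≤ N` with `Ω(n) ∈ A` -/
noncomputable def dn (A : Set ℕ) (N : ℕ) : ℝ := (∑ n ∈ range N, ff A n) / N

lemma dn_nn (A : Set ℕ) (N : ℕ) : 0 ≤ dn A N := div_nonneg (sum_nonneg fun _ _ => ff_nn _ _) (Nat.cast_nonneg _)

lemma dn_le (A : Set ℕ) (N : ℕ) : dn A N ≤ 1 := by
  unfold dn
  apply div_le_one_of_le₀ _ (Nat.cast_nonneg _)
  refine (sum_le_sum fun n _ => ff_le A n).trans ?_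
  rw [sum_const, card_range, nsmul_eq_mul, mul_one]

/-- the two point property -/
def TP (A E : Set ℕ) : Prop := ∀ u v : ℕ, u ≠ v → ∀ ε : ℝ, 0 < ε → ∃ N₀ : ℕ, ∀ N : ℕ, N₀ ≤ N → N ∉ E →
  |∑ n ∈ range N, ff A (n + u) * (ff A (n + v) - dn A N)| ≤ ε * N

lemma csg_om' (χ : ℕ → Fin 1) (n : ℕ) : ((csg χ n).map Prod.snd).sum = cardFactors n := by
  rw [ArithmeticFunction.cardFactors_eq_sum_factorization]
  unfold csg
  rw [Multiset.map_map]
  rfl

theorem twoP (A : Set ℕ) : ∃ E : Set ℕ, LZ E ∧ TP A E := by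
  classical
  set B : ℕ → ℂ := fun l => if l ∈ A then 1 else 0 with hB
  have hB1 : ∀ l, ‖B l‖ ≤ 1 := fun l => by
    rw [hB]
    simp only
    split_ifs <;> simp
  obtain ⟨E, hE, h1⟩ := excW (kc := 1) (fun _ => 0) (fun s => B ((s.map Prod.snd).sum)) (fun s => hB1 _) (fun _ => 1)
    (fun n _ => by simp) (fun m n _ _ _ => by simp) B hB1
  refine ⟨E, hE, fun u v huv ε hε => ?_⟩
  obtain ⟨N₀, h2⟩ := h1 v u huv.symm ε hε
  refine ⟨N₀, fun N hN hNE => ?_⟩
  have h3 := h2 N hN hNE 0 N le_rfl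
  have hff : ∀ n, ((ff A n : ℝ) : ℂ) = B (cardFactors (n + 1)) := by
    intro n
    unfold ff
    rw [hB]
    simp only
    split_ifs <;> simp
  have hmb : mB B N = ((dn A N : ℝ) : ℂ) := by
    unfold mB dn
    rw [icc_range]
    push_cast
    rw [sum_congr rfl fun n _ => hff n]
  have h4 : Lc (fun n => B (((csg (fun _ => (0 : Fin 1)) (n + u)).map Prod.snd).sum) * 1 * ee (0 * n)) v N N B =
      ((∑ n ∈ range N, ff A (n + u) * (ff A (n + v) - dn A N) : ℝ) : ℂ) := by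
    unfold Lc
    rw [icc_range, hmb]
    push_cast
    apply sum_congr rfl
    intro n _
    rw [csg_om', hff, hff]
    have e1 : ee (0 * ((n : ℝ) + 1)) = 1 := by
      unfold ee
      simp
    rw [show n + 1 + u = n + u + 1 by ring, show n + 1 + v = n + v + 1 by ring, e1, mul_one, mul_one]
  have h5 : Lc (fun n => B (((csg (fun _ => (0 : Fin 1)) (n + u)).map Prod.snd).sum) * 1 * ee (0 * n)) v N N B =
      Lc (fun n => (fun s : Multiset (Fin 1 × ℕ) => B ((s.map Prod.snd).sum)) (csg (fun _ => (0 : Fin 1)) (n + u)) *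
        (fun _ => (1 : ℂ)) (n + u) * ee (0 * n)) v N N B := rfl
  rw [← h5, h4, Complex.norm_real, Real.norm_eq_abs] at h3
  exact h3

lemma avL {A E : Set ℕ} (hE : TP A E) (p : ℕ) (hp : 1 ≤ p) (κ : ℝ) (hκ : 0 < κ) (hpκ : 1 / (p : ℝ) ≤ κ ^ 2 / 2) (m : ℕ)
    (hm : 1 ≤ m) :
    ∃ N₀ : ℕ, ∀ N : ℕ, N₀ ≤ N → N ∉ E → ∑ n ∈ range N, |avn (ff A) m p n - dn A N| ≤ κ * N := by
  have hp0 : (0 : ℝ) < p := by exact_mod_cast hp
  have h1 : ∀ q ∈ (range p ×ˢ range p).filter (fun q => q.1 ≠ q.2), ∀ᶠ N : ℕ in atTop, N ∉ E →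
      |∑ n ∈ range N, ff A (n + m * q.1) * (ff A (n + m * q.2) - dn A N)| ≤ κ ^ 2 / 4 * N := by
    intro q hq
    rw [mem_filter] at hq
    obtain ⟨N₀, h⟩ := hE (m * q.1) (m * q.2) (fun h => hq.2 (Nat.eq_of_mul_eq_mul_left (by omega) h)) (κ ^ 2 / 4)
      (by positivity)
    exact eventually_atTop.2 ⟨N₀, h⟩
  have h2 := (Filter.eventually_all_finset _).2 h1
  obtain ⟨N₁, hN₁⟩ := eventually_atTop.1 h2
  obtain ⟨N₂, hN₂⟩ := exists_nat_ge (8 * (m * p : ℝ) / κ ^ 2)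
  refine ⟨N₁ + N₂, fun N hN hNE => ?_⟩
  have h3 := hN₁ N (by omega)
  have hN0 : (0 : ℝ) ≤ N := Nat.cast_nonneg _
  have hN2 : 2 * (m * p : ℝ) ≤ κ ^ 2 / 4 * N := by
    have e1 : 8 * (m * p : ℝ) / κ ^ 2 ≤ N := hN₂.trans (by exact_mod_cast (by omega : N₂ ≤ N))
    rw [div_le_iff₀ (by positivity)] at e1
    linarith
  set α := dn A N with hα
  have hα0 : 0 ≤ α := dn_nn A N
  have hα1 : α ≤ 1 := dn_le A N
  have hx : ∀ n, |ff A n - α| ≤ 1 := fun n => by
    have := ff_nn A n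
    have := ff_le A n
    rw [abs_le]
    constructor <;> linarith
  -- the second moments
  have h4 : ∀ j ∈ range p, ∀ j' ∈ range p,
      ∑ n ∈ range N, (ff A (n + m * j) - α) * (ff A (n + m * j') - α) ≤ (if j = j' then (N : ℝ) else 0) + κ ^ 2 / 2 * N := by
    intro j hj j' hj'
    by_cases h : j = j'
    · subst h
      rw [if_pos rfl]
      have e1 : ∑ n ∈ range N, (ff A (n + m * j) - α) * (ff A (n + m * j) - α) ≤ ∑ n ∈ range N, (1 : ℝ) := by
        apply sum_le_sum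
        intro n _
        have := hx (n + m * j)
        rw [← sq, ← sq_abs]
        exact pow_le_one₀ (abs_nonneg _) this
      rw [sum_const, card_range, nsmul_eq_mul, mul_one] at e1
      have : 0 ≤ κ ^ 2 / 2 * (N : ℝ) := by positivity
      linarith
    · rw [if_neg h, zero_add]
      have e1 := h3 (j, j') (mem_filter.2 ⟨mem_product.2 ⟨hj, hj'⟩, h⟩) hNE
      have e2 : ∑ n ∈ range N, (ff A (n + m * j) - α) * (ff A (n + m * j') - α) =
          ∑ n ∈ range N, ff A (n + m * j) * (ff A (n + m * j') - α) -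
            α * (∑ n ∈ range N, ff A (n + m * j') - ∑ n ∈ range N, ff A n) := by
        have e3 : ∑ n ∈ range N, ff A n = α * N := by
          rcases Nat.eq_zero_or_pos N with h0 | h0
          · rw [h0]
            simp
          · have : (0 : ℝ) < N := by exact_mod_cast h0
            rw [hα]
            unfold dn
            field_simp
        have e9 : ∑ n ∈ range N, (ff A (n + m * j) - α) * (ff A (n + m * j') - α) =
            ∑ n ∈ range N, (ff A (n + m * j) * (ff A (n + m * j') - α) - (α * ff A (n + m * j') - α * α)) :=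
          sum_congr rfl fun n _ => by ring
        rw [e9, sum_sub_distrib, sum_sub_distrib, ← mul_sum, sum_const, card_range, nsmul_eq_mul, e3]
        ring
      have e4 := shift_abs (ff A) (fun n => by
        rw [abs_of_nonneg (ff_nn A n)]
        exact ff_le A n) N (m * j')
      have e5 : |α * (∑ n ∈ range N, ff A (n + m * j') - ∑ n ∈ range N, ff A n)| ≤ 2 * (m * p : ℝ) := by
        rw [abs_mul, abs_of_nonneg hα0]
        have e6 : ((m * j' : ℕ) : ℝ) ≤ m * p := by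
          exact_mod_cast Nat.mul_le_mul_left m (mem_range.1 hj').le
        calc α * |∑ n ∈ range N, ff A (n + m * j') - ∑ n ∈ range N, ff A n| ≤ 1 * (2 * ((m * j' : ℕ) : ℝ)) :=
              mul_le_mul hα1 e4 (abs_nonneg _) zero_le_one
          _ ≤ 2 * (m * p : ℝ) := by linarith
      rw [e2]
      have e7 := (abs_le.1 e1).2
      have e8 := (abs_le.1 e5).1
      linarith
  have h5 : ∑ n ∈ range N, (avn (ff A) m p n - α) ^ 2 ≤ κ ^ 2 * N := by
    have e1 : ∀ n, (avn (ff A) m p n - α) ^ 2 =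
        (∑ j ∈ range p, ∑ j' ∈ range p, (ff A (n + m * j) - α) * (ff A (n + m * j') - α)) / (p : ℝ) ^ 2 := by
      intro n
      have e2 : avn (ff A) m p n - α = (∑ j ∈ range p, (ff A (n + m * j) - α)) / p := by
        unfold avn
        rw [sum_sub_distrib, sum_const, card_range, nsmul_eq_mul, sub_div, mul_div_cancel_left₀ _ hp0.ne']
      rw [e2, div_pow, sq (∑ j ∈ range p, (ff A (n + m * j) - α)), sum_mul_sum]
    rw [sum_congr rfl fun n _ => e1 n, ← sum_div, div_le_iff₀ (by positivity), sum_comm]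
    rw [sum_congr rfl fun j _ => sum_comm]
    refine (sum_le_sum fun j hj => sum_le_sum fun j' hj' => h4 j hj j' hj').trans ?_
    have e3 : ∑ j ∈ range p, ∑ j' ∈ range p, ((if j = j' then (N : ℝ) else 0) + κ ^ 2 / 2 * N) =
        p * N + p * (p * (κ ^ 2 / 2 * N)) := by
      simp only [sum_add_distrib, sum_const, card_range, nsmul_eq_mul]
      congr 1
      rw [sum_congr rfl (g := fun _ => (N : ℝ)) fun j hj => by rw [sum_ite_eq, if_pos hj], sum_const, card_range,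
        nsmul_eq_mul]
    rw [e3]
    have e4 : (p : ℝ) * N ≤ κ ^ 2 / 2 * N * (p : ℝ) ^ 2 := by
      rw [div_le_iff₀ hp0] at hpκ
      have : (N : ℝ) * p * 1 ≤ N * p * (κ ^ 2 / 2 * p) := mul_le_mul_of_nonneg_left hpκ (by positivity)
      linarith
    linarith
  have h6 : ∀ n ∈ range N, |avn (ff A) m p n - α| ≤ (avn (ff A) m p n - α) ^ 2 / (2 * κ) + κ / 2 := by
    intro n _
    have e1 : 0 ≤ (|avn (ff A) m p n - α| - κ) ^ 2 := sq_nonneg _
    have e2 := sq_abs (avn (ff A) m p n - α)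
    have e3 : (avn (ff A) m p n - α) ^ 2 / (2 * κ) + κ / 2 = ((avn (ff A) m p n - α) ^ 2 + κ ^ 2) / (2 * κ) := by
      field_simp
    rw [e3, le_div_iff₀ (by positivity)]
    nlinarith
  refine (sum_le_sum h6).trans ?_
  rw [sum_add_distrib, ← sum_div, sum_const, card_range, nsmul_eq_mul]
  have h7 : (∑ n ∈ range N, (avn (ff A) m p n - α) ^ 2) / (2 * κ) ≤ κ / 2 * N := by
    rw [div_le_iff₀ (by positivity)]
    refine h5.trans (le_of_eq ?_)
    ring
  linarith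

/-- the moments for one set -/
theorem single (k : ℕ) (hk : 1 ≤ k) (ε : ℝ) (hε : 0 < ε) : ∃ C : ℕ, 1 ≤ C ∧ ∀ A E : Set ℕ, TP A E → ∃ N₀ : ℕ,
    ∀ N : ℕ, N₀ ≤ N → N ∉ E → dn A N ≤ 1 / 2 → ∀ H : ℕ, C ≤ H → C * H ≤ N →
      ∑ n ∈ range N, ∑ a ∈ Icc 1 H, S (ff A) H n a ^ k ≤ (Ik k (dn A N) + ε) * N * H := by
  have hk0 : (0 : ℝ) < k := by exact_mod_cast hk
  obtain ⟨M, p₁, hM1, hgen⟩ := gen3 k hk (ε / 2) (by positivity)
  have hM0 : (0 : ℝ) < M := by exact_mod_cast hM1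
  set κ : ℝ := ε / (4 * k * M) with hκ
  have hκ0 : 0 < κ := by positivity
  obtain ⟨p₂, hp₂⟩ := exists_nat_ge (2 / κ ^ 2)
  obtain ⟨p, hpp, hprime⟩ := Nat.exists_infinite_primes (p₁ + p₂)
  have hp0 : (0 : ℝ) < p := by exact_mod_cast hprime.pos
  have hpκ : 1 / (p : ℝ) ≤ κ ^ 2 / 2 := by
    have e1 : 2 / κ ^ 2 ≤ p := hp₂.trans (by exact_mod_cast (by omega : p₂ ≤ p))
    rw [div_le_iff₀ (by positivity)] at e1
    rw [div_le_iff₀ hp0]
    linarith
  obtain ⟨C, hC1, hC⟩ := hgen p hprime (by omega)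
  refine ⟨C, hC1, fun A E hTP => ?_⟩
  have h1 : ∀ m ∈ Icc 1 M, ∀ᶠ N : ℕ in atTop, N ∉ E → ∑ n ∈ range N, |avn (ff A) m p n - dn A N| ≤ κ * N := by
    intro m hm
    obtain ⟨N₀, h⟩ := avL hTP p hprime.one_lt.le κ hκ0 hpκ m (mem_Icc.1 hm).1
    exact eventually_atTop.2 ⟨N₀, h⟩
  obtain ⟨N₀, hN₀⟩ := eventually_atTop.1 ((Filter.eventually_all_finset _).2 h1)
  refine ⟨N₀, fun N hN hNE hd H hH hHN => ?_⟩
  have h2 := hC (ff A) (ff_01 A) (dn A N) (dn_nn A N) hd H N hH hHN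
  have h3 : ∑ m ∈ Icc 1 M, ∑ n ∈ range N, |avn (ff A) m p n - dn A N| ≤ M * (κ * N) := by
    refine (sum_le_sum fun m hm => hN₀ N hN m hm hNE).trans (le_of_eq ?_)
    rw [sum_const, Nat.card_Icc, Nat.add_sub_cancel, nsmul_eq_mul]
  have h4 : 2 * (k : ℝ) * H * ∑ m ∈ Icc 1 M, ∑ n ∈ range N, |avn (ff A) m p n - dn A N| ≤ 2 * k * H * (M * (κ * N)) :=
    mul_le_mul_of_nonneg_left h3 (by positivity)
  have h5 : 2 * (k : ℝ) * H * (M * (κ * N)) = ε / 2 * N * H := by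
    rw [hκ]
    field_simp
    ring
  linarith

/-- the moments for several sets -/
theorem family (k : ℕ) (hk : 1 ≤ k) (ε : ℝ) (hε : 0 < ε) : ∃ C : ℕ, 1 ≤ C ∧ ∀ A E : Fin k → Set ℕ, (∀ i, TP (A i) (E i)) →
    ∃ N₀ : ℕ, ∀ N : ℕ, N₀ ≤ N → (∀ i, N ∉ E i) → (∀ i, dn (A i) N ≤ 1 / 2) → ∀ H : ℕ, C ≤ H → C * H ≤ N →
      ∑ n ∈ range N, ∑ a ∈ Icc 1 H, ∏ i, S (ff (A i)) H n a ≤
        (∏ i, (Ik k (dn (A i) N) + ε) ^ ((1 : ℝ) / k)) * N * H := by
  have hk0 : (0 : ℝ) < k := by exact_mod_cast hk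
  obtain ⟨C, hC1, hC⟩ := single k hk ε hε
  refine ⟨C, hC1, fun A E hTP => ?_⟩
  have h1 : ∀ i ∈ (univ : Finset (Fin k)), ∀ᶠ N : ℕ in atTop, N ∉ E i → dn (A i) N ≤ 1 / 2 → ∀ H : ℕ, C ≤ H → C * H ≤ N →
      ∑ n ∈ range N, ∑ a ∈ Icc 1 H, S (ff (A i)) H n a ^ k ≤ (Ik k (dn (A i) N) + ε) * N * H := by
    intro i _
    obtain ⟨N₀, h⟩ := hC (A i) (E i) (hTP i)
    exact eventually_atTop.2 ⟨N₀, h⟩
  obtain ⟨N₀, hN₀⟩ := eventually_atTop.1 ((Filter.eventually_all_finset _).2 h1)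
  refine ⟨N₀, fun N hN hNE hd H hH hHN => ?_⟩
  set l : Fin k → ℝ := fun i => (Ik k (dn (A i) N) + ε) ^ ((1 : ℝ) / k) with hl
  have hI : ∀ i, 0 < Ik k (dn (A i) N) + ε := fun i => by
    have : 0 ≤ Ik k (dn (A i) N) := by
      unfold Ik
      have := dn_nn (A i) N
      positivity
    linarith
  have hl0 : ∀ i, 0 < l i := fun i => Real.rpow_pos_of_pos (hI i) _
  have hlk : ∀ i, l i ^ k = Ik k (dn (A i) N) + ε := fun i => by
    rw [hl]
    simp only
    rw [one_div]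
    exact Real.rpow_inv_natCast_pow (hI i).le (by omega)
  have hS0 : ∀ (i : Fin k) (n a : ℕ), 0 ≤ S (ff (A i)) H n a := fun i n a => by
    unfold S
    exact div_nonneg (sum_nonneg fun b _ => mul_nonneg (ff_nn _ _) (ff_nn _ _)) (Nat.cast_nonneg _)
  have hpt : ∀ n a : ℕ, ∏ i, S (ff (A i)) H n a ≤ (∏ i, l i) * (∑ i, S (ff (A i)) H n a ^ k / l i ^ k) / k := by
    intro n a
    have e1 := Real.geom_mean_le_arith_mean_weighted (univ : Finset (Fin k)) (fun _ => (1 : ℝ) / k)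
      (fun i => (S (ff (A i)) H n a / l i) ^ k) (fun _ _ => by positivity) (by
        rw [sum_const, card_univ, Fintype.card_fin, nsmul_eq_mul, mul_one_div, div_self hk0.ne'])
      (fun i _ => pow_nonneg (div_nonneg (hS0 i n a) (hl0 i).le) _)
    have e2 : ∀ i ∈ (univ : Finset (Fin k)), ((S (ff (A i)) H n a / l i) ^ k) ^ ((1 : ℝ) / k) = S (ff (A i)) H n a / l i := by
      intro i _
      rw [one_div]
      exact Real.pow_rpow_inv_natCast (div_nonneg (hS0 i n a) (hl0 i).le) (by omega)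
    rw [prod_congr rfl e2, prod_div_distrib] at e1
    have hL : 0 < ∏ i, l i := prod_pos fun i _ => hl0 i
    rw [div_le_iff₀ hL] at e1
    refine e1.trans (le_of_eq ?_)
    rw [← mul_sum]
    simp only [div_pow]
    ring
  have hsum : ∑ n ∈ range N, ∑ a ∈ Icc 1 H, ∏ i, S (ff (A i)) H n a ≤
      (∏ i, l i) * (∑ i, (∑ n ∈ range N, ∑ a ∈ Icc 1 H, S (ff (A i)) H n a ^ k) / l i ^ k) / k := by
    refine (sum_le_sum fun n _ => sum_le_sum fun a _ => hpt n a).trans (le_of_eq ?_)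
    simp only [mul_div_assoc, ← mul_sum, ← sum_div]
    congr 2
    rw [sum_congr rfl fun n _ => sum_comm, sum_comm]
    simp only [sum_div]
  refine hsum.trans ?_
  have h5 : ∑ i, (∑ n ∈ range N, ∑ a ∈ Icc 1 H, S (ff (A i)) H n a ^ k) / l i ^ k ≤ k * (N * H) := by
    have e1 : ∀ i ∈ (univ : Finset (Fin k)), (∑ n ∈ range N, ∑ a ∈ Icc 1 H, S (ff (A i)) H n a ^ k) / l i ^ k ≤ N * H := by
      intro i hi
      rw [div_le_iff₀ (pow_pos (hl0 i) _), hlk]
      have := hN₀ N hN i hi (hNE i) (hd i) H hH hHN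
      linarith
    refine (sum_le_sum e1).trans (le_of_eq ?_)
    rw [sum_const, card_univ, Fintype.card_fin, nsmul_eq_mul]
  have hL : 0 ≤ ∏ i, l i := prod_nonneg fun i _ => (hl0 i).le
  rw [div_le_iff₀ hk0]
  have := mul_le_mul_of_nonneg_left h5 hL
  linarith

end Pool.Agent.R509.PQ
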