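import Pool.Agent.R509.PQ.Win

/-!
Library R509.PQ (helper509): moments of the local autocorrelations of a set.
-/

set_option autoImplicit false

namespace Pool.Agent.R509.PQ

open Finset
open Pool.Agent.R509.CD

section seq

variable {f : ℕ → ℝ} {k0 : ℕ}

lemma f_abs' (hf : ∀ n, f n = 0 ∨ f n = 1) (n : ℕ) : |f n| ≤ 1 := by
  rcases hf n with h | h <;> rw [h] <;> norm_num

lemma f_nn (hf : ∀ n, f n = 0 ∨ f n = 1) (n : ℕ) : 0 ≤ f n := by
  rcases hf n with h | h <;> rw [h] <;> norm_num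

lemma f_abs2' (hf : ∀ n, f n = 0 ∨ f n = 1) (n m : ℕ) : |f n * f m| ≤ 1 := by
  rw [abs_mul]
  exact mul_le_one₀ (f_abs' hf n) (abs_nonneg _) (f_abs' hf m)

lemma V_abs' (hf : ∀ n, f n = 0 ∨ f n = 1) (K n n' : ℕ) : |V f K n n'| ≤ 1 :=
  avg_abs _ _ (fun i => f_abs2' hf _ _) K (card_range K).le

lemma S_abs' (hf : ∀ n, f n = 0 ∨ f n = 1) (H n a : ℕ) : |S f H n a| ≤ 1 :=
  avg_abs _ (fun b => f (n + b) * f (n + b + a)) (fun i => f_abs2' hf _ _) H (card_range H).le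

lemma V0 (hf : ∀ n, f n = 0 ∨ f n = 1) (K n n' : ℕ) : 0 ≤ V f K n n' := by
  unfold V
  exact div_nonneg (sum_nonneg fun i _ => mul_nonneg (f_nn hf _) (f_nn hf _)) (Nat.cast_nonneg _)

lemma avg_pow {ι : Type} (s : Finset ι) (n : ℝ) (hn : 0 < n) (hs : (s.card : ℝ) = n) (z : ι → ℝ)
    (hz : ∀ i ∈ s, 0 ≤ z i) (k : ℕ) : ((∑ i ∈ s, z i) / n) ^ k ≤ (∑ i ∈ s, z i ^ k) / n := by
  have := Real.pow_arith_mean_le_arith_mean_pow s (fun _ => 1 / n) z (fun _ _ => by positivity) (by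
    rw [sum_const, nsmul_eq_mul, hs, mul_one_div, div_self hn.ne']) hz k
  rw [← mul_sum, ← mul_sum] at this
  rw [div_eq_inv_mul, div_eq_inv_mul, ← one_div]
  exact this

/-- the local energy -/
noncomputable def W3 (f : ℕ → ℝ) (k0 K A n : ℕ) : ℝ :=
  (∑ s ∈ range A, ∑ s' ∈ range A, (V f K (n + s) (n + s')) ^ k0) / (A : ℝ) ^ 2

/-- step 2 -/
lemma step2' (hf : ∀ n, f n = 0 ∨ f n = 1) (K H n a : ℕ) (hK : 1 ≤ K) (hH : 1 ≤ H) :
    (S f H n a) ^ k0 ≤ (∑ b ∈ range H, (V f K (n + b) (n + b + a)) ^ k0) / H + k0 * (2 * K / H) := by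
  have hK0 : (0 : ℝ) < K := by exact_mod_cast hK
  have hH0 : (0 : ℝ) < H := by exact_mod_cast hH
  set M : ℝ := (∑ b ∈ range H, V f K (n + b) (n + b + a)) / H with hM
  have h1 : |S f H n a - M| ≤ 2 * K / H := by
    have e1 : S f H n a - M = (∑ i ∈ range K, (∑ b ∈ range H, f (n + b) * f (n + b + a) -
        ∑ b ∈ range H, f (n + (b + i)) * f (n + (b + i) + a))) / (K * H) := by
      rw [hM]
      unfold S V
      rw [sum_sub_distrib, sum_const, card_range, nsmul_eq_mul, ← sum_div, sum_comm]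
      have : ∀ b ∈ range H, ∑ i ∈ range K, f (n + b + i) * f (n + b + a + i) =
          ∑ i ∈ range K, f (n + (b + i)) * f (n + (b + i) + a) := by
        intro b _
        apply sum_congr rfl
        intro i _
        congr 2 <;> ring
      rw [sum_comm, sum_congr rfl this]
      field_simp
      congr 1
      exact sum_comm
    rw [e1, abs_div, abs_of_pos (by positivity : (0 : ℝ) < K * H), div_le_div_iff₀ (by positivity) hH0]
    have e2 : |∑ i ∈ range K, (∑ b ∈ range H, f (n + b) * f (n + b + a) -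
        ∑ b ∈ range H, f (n + (b + i)) * f (n + (b + i) + a))| ≤ K * (2 * K) := by
      refine (abs_sum_le_sum_abs _ _).trans ?_
      have : ∀ i ∈ range K, |∑ b ∈ range H, f (n + b) * f (n + b + a) -
          ∑ b ∈ range H, f (n + (b + i)) * f (n + (b + i) + a)| ≤ 2 * K := by
        intro i hi
        rw [mem_range] at hi
        rw [abs_sub_comm]
        refine (shift_abs (fun b => f (n + b) * f (n + b + a)) (fun b => f_abs2' hf _ _) H i).trans ?_
        have : (i : ℝ) ≤ K := by exact_mod_cast hi.le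
        linarith
      refine (sum_le_sum this).trans (le_of_eq ?_)
      rw [sum_const, card_range, nsmul_eq_mul]
    nlinarith
  have hMabs : |M| ≤ 1 := avg_abs _ (fun b => V f K (n + b) (n + b + a)) (fun b => V_abs' hf _ _ _) H (card_range H).le
  have h2 := pow_lip _ _ (S_abs' hf H n a) hMabs k0
  have h3 : M ^ k0 ≤ (∑ b ∈ range H, (V f K (n + b) (n + b + a)) ^ k0) / H :=
    avg_pow (range H) H hH0 (by rw [card_range]) _ (fun b _ => V0 hf _ _ _) k0
  have h4 := (abs_le.1 h2).2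
  have h5 : (k0 : ℝ) * |S f H n a - M| ≤ k0 * (2 * K / H) := mul_le_mul_of_nonneg_left h1 (Nat.cast_nonneg _)
  linarith

lemma pV_nonneg (hf : ∀ n, f n = 0 ∨ f n = 1) (K n n' : ℕ) : 0 ≤ (V f K n n') ^ k0 :=
  pow_nonneg (V0 hf _ _ _) _

lemma pV_le (hf : ∀ n, f n = 0 ∨ f n = 1) (K n n' : ℕ) : (V f K n n') ^ k0 ≤ 1 :=
  pow_le_one₀ (V0 hf _ _ _) (abs_le.1 (V_abs' hf _ _ _)).2

/-- step 3 -/
lemma step3' (hf : ∀ n, f n = 0 ∨ f n = 1) (K H X : ℕ) (hK : 1 ≤ K) (hH : 1 ≤ H) :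
    ∑ n ∈ range X, ∑ a ∈ Icc 1 H, (S f H n a) ^ k0 ≤
      ∑ n ∈ range X, ∑ a ∈ Icc 1 H, (V f K n (n + a)) ^ k0 + H * H + X * H * (k0 * (2 * K / H)) := by
  have hH0 : (0 : ℝ) < H := by exact_mod_cast hH
  have h1 : ∑ n ∈ range X, ∑ a ∈ Icc 1 H, (S f H n a) ^ k0 ≤
      ∑ n ∈ range X, ∑ a ∈ Icc 1 H, ((∑ b ∈ range H, (V f K (n + b) (n + b + a)) ^ k0) / H + k0 * (2 * K / H)) :=
    sum_le_sum fun n _ => sum_le_sum fun a _ => step2' hf K H n a hK hH
  have h2 : ∑ n ∈ range X, ∑ a ∈ Icc 1 H, ((∑ b ∈ range H, (V f K (n + b) (n + b + a)) ^ k0) / H + k0 * (2 * K / H)) =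
      (∑ a ∈ Icc 1 H, ∑ b ∈ range H, ∑ n ∈ range X, (V f K (n + b) (n + b + a)) ^ k0) / H + X * H * (k0 * (2 * K / H)) := by
    simp only [sum_add_distrib, sum_const, card_range, Nat.card_Icc, Nat.add_sub_cancel, nsmul_eq_mul, ← sum_div]
    congr 1
    · congr 1
      rw [sum_comm]
      apply sum_congr rfl
      intro a _
      rw [sum_comm]
    · ring
  rw [h2] at h1
  have h3 : ∀ a ∈ Icc 1 H, ∀ b ∈ range H, ∑ n ∈ range X, (V f K (n + b) (n + b + a)) ^ k0 ≤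
      ∑ n ∈ range X, (V f K n (n + a)) ^ k0 + H := by
    intro a _ b hb
    rw [mem_range] at hb
    refine (shift_le (fun n => (V f K n (n + a)) ^ k0) (fun n => pV_nonneg hf K _ _) (fun n => pV_le hf K _ _) X b).trans ?_
    have : (b : ℝ) ≤ H := by exact_mod_cast hb.le
    linarith
  have h4 : (∑ a ∈ Icc 1 H, ∑ b ∈ range H, ∑ n ∈ range X, (V f K (n + b) (n + b + a)) ^ k0) / H ≤
      ∑ n ∈ range X, ∑ a ∈ Icc 1 H, (V f K n (n + a)) ^ k0 + H * H := by
    rw [div_le_iff₀ hH0]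
    refine (sum_le_sum fun a ha => sum_le_sum fun b hb => h3 a ha b hb).trans (le_of_eq ?_)
    rw [sum_comm (s := range X)]
    simp only [sum_add_distrib, sum_const, card_range, Nat.card_Icc, Nat.add_sub_cancel, nsmul_eq_mul, ← mul_sum]
    ring
  linarith

lemma W3_nonneg (hf : ∀ n, f n = 0 ∨ f n = 1) (K A n : ℕ) : 0 ≤ W3 f k0 K A n := by
  unfold W3
  apply div_nonneg _ (by positivity)
  exact sum_nonneg fun s _ => sum_nonneg fun s' _ => pV_nonneg hf K _ _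

lemma W3_le (hf : ∀ n, f n = 0 ∨ f n = 1) (K A n : ℕ) : W3 f k0 K A n ≤ 1 := by
  unfold W3
  apply div_le_one_of_le₀ _ (by positivity)
  refine (sum_le_sum fun s _ => sum_le_sum fun s' _ => pV_le hf K _ _).trans (le_of_eq ?_)
  simp only [sum_const, card_range, nsmul_eq_mul]
  ring

/-- step 4 -/
lemma step4' (hf : ∀ n, f n = 0 ∨ f n = 1) (K H X A : ℕ) (hA : 1 ≤ A) :
    ∑ n ∈ range X, ∑ a ∈ Icc 1 H, (V f K n (n + a)) ^ k0 ≤
      H * ∑ n ∈ range X, W3 f k0 K A n + H * H + A * (H + X) := by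
  have hA0 : (0 : ℝ) < A := by exact_mod_cast hA
  set Z : ℝ := ∑ n ∈ range X, ∑ a ∈ Icc 1 H, (V f K n (n + a)) ^ k0 with hZ
  have h1 : ∀ s ∈ range A, ∀ s' ∈ range A, Z ≤ ∑ n ∈ range X, ∑ a ∈ Icc 1 H, (V f K (n + s) (n + a + s')) ^ k0 + A * (H + X) := by
    intro s hs s' hs'
    rw [mem_range] at hs hs'
    have e1 : Z ≤ ∑ n ∈ range X, ∑ a ∈ Icc 1 H, (V f K (n + s) (n + s + a)) ^ k0 + A * H := by
      rw [hZ, sum_comm, sum_comm (s := range X)]
      have : ∀ a ∈ Icc 1 H, ∑ n ∈ range X, (V f K n (n + a)) ^ k0 ≤ ∑ n ∈ range X, (V f K (n + s) (n + s + a)) ^ k0 + A := by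
        intro a _
        refine (shift_ge (fun n => (V f K n (n + a)) ^ k0) (fun n => pV_nonneg hf K _ _) (fun n => pV_le hf K _ _) X s).trans ?_
        have : (s : ℝ) ≤ A := by exact_mod_cast hs.le
        linarith
      refine (sum_le_sum this).trans (le_of_eq ?_)
      rw [sum_add_distrib, sum_const, Nat.card_Icc, Nat.add_sub_cancel, nsmul_eq_mul]
      ring
    have e2 : ∑ n ∈ range X, ∑ a ∈ Icc 1 H, (V f K (n + s) (n + s + a)) ^ k0 ≤
        ∑ n ∈ range X, ∑ a ∈ Icc 1 H, (V f K (n + s) (n + a + s')) ^ k0 + A * X := by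
      have : ∀ n ∈ range X, ∑ a ∈ Icc 1 H, (V f K (n + s) (n + s + a)) ^ k0 ≤
          ∑ a ∈ Icc 1 H, (V f K (n + s) (n + a + s')) ^ k0 + A := by
        intro n _
        have := shiftI (fun a => (V f K (n + s) (n + a)) ^ k0) (fun a => pV_nonneg hf K _ _) (fun a => pV_le hf K _ _)
          H s s' A hs hs'
        have e3 : ∀ a ∈ Icc 1 H, (V f K (n + s) (n + (a + s))) ^ k0 = (V f K (n + s) (n + s + a)) ^ k0 := fun a _ => by
          congr 2; ring
        have e4 : ∀ a ∈ Icc 1 H, (V f K (n + s) (n + (a + s'))) ^ k0 = (V f K (n + s) (n + a + s')) ^ k0 := fun a _ => by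
          congr 2; ring
        rw [sum_congr rfl e3, sum_congr rfl e4] at this
        exact this
      refine (sum_le_sum this).trans (le_of_eq ?_)
      rw [sum_add_distrib, sum_const, card_range, nsmul_eq_mul]
      ring
    linarith
  have h2 : (A : ℝ) ^ 2 * Z ≤ ∑ s ∈ range A, ∑ s' ∈ range A,
      (∑ n ∈ range X, ∑ a ∈ Icc 1 H, (V f K (n + s) (n + a + s')) ^ k0 + A * (H + X)) := by
    have := sum_le_sum fun s hs => sum_le_sum fun s' hs' => h1 s hs s' hs'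
    simp only [sum_const, card_range, nsmul_eq_mul] at this
    have e : (A : ℝ) ^ 2 * Z = A * (A * Z) := by ring
    rw [e]
    exact this
  have h3 : ∑ s ∈ range A, ∑ s' ∈ range A,
      (∑ n ∈ range X, ∑ a ∈ Icc 1 H, (V f K (n + s) (n + a + s')) ^ k0 + (A : ℝ) * (H + X)) =
      ∑ n ∈ range X, ∑ a ∈ Icc 1 H, ∑ s ∈ range A, ∑ s' ∈ range A, (V f K (n + s) (n + a + s')) ^ k0 +
        (A : ℝ) ^ 2 * (A * (H + X)) := by
    simp only [sum_add_distrib, sum_const, card_range, nsmul_eq_mul]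
    congr 1
    · rw [sum_congr rfl fun s _ => sum_comm, sum_comm]
      apply sum_congr rfl
      intro n _
      rw [sum_congr rfl fun s _ => sum_comm, sum_comm]
    · ring
  rw [h3] at h2
  have h4 : ∀ n a : ℕ, ∑ s ∈ range A, ∑ s' ∈ range A, (V f K (n + s) (n + a + s')) ^ k0 ≤
      (A : ℝ) ^ 2 * ((W3 f k0 K A n + W3 f k0 K A (n + a)) / 2) := by
    intro n a
    refine (psd (f := f) k0 K A n (n + a)).trans (le_of_eq ?_)
    unfold W3
    field_simp
  have h5 : ∑ n ∈ range X, ∑ a ∈ Icc 1 H, ∑ s ∈ range A, ∑ s' ∈ range A, (V f K (n + s) (n + a + s')) ^ k0 ≤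
      (A : ℝ) ^ 2 * (H * ∑ n ∈ range X, W3 f k0 K A n + H * H) := by
    refine (sum_le_sum fun n _ => sum_le_sum fun a _ => h4 n a).trans ?_
    simp only [← mul_sum]
    apply mul_le_mul_of_nonneg_left _ (by positivity)
    rw [sum_comm]
    have : ∀ a ∈ Icc 1 H, ∑ n ∈ range X, (W3 f k0 K A n + W3 f k0 K A (n + a)) / 2 ≤ ∑ n ∈ range X, W3 f k0 K A n + H := by
      intro a ha
      rw [mem_Icc] at ha
      have e1 := shift_le (fun n => W3 f k0 K A n) (fun n => W3_nonneg hf K A n) (fun n => W3_le hf K A n) X a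
      have e2 : (a : ℝ) ≤ H := by exact_mod_cast ha.2
      rw [← sum_div, sum_add_distrib]
      have e3 : (0 : ℝ) ≤ H := Nat.cast_nonneg _
      linarith
    refine (sum_le_sum this).trans (le_of_eq ?_)
    rw [sum_const, Nat.card_Icc, Nat.add_sub_cancel, nsmul_eq_mul]
    ring
  have h6 : (A : ℝ) ^ 2 * Z ≤ (A : ℝ) ^ 2 * (H * ∑ n ∈ range X, W3 f k0 K A n + H * H + A * (H + X)) := by
    nlinarith
  exact le_of_mul_le_mul_left h6 (by positivity)

lemma Rcy_le (hf : ∀ n, f n = 0 ∨ f n = 1) (K n : ℕ) [NeZero K] (s s' : ℕ) :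
    |R (cy f K n) ((s : ZMod K) - (s' : ZMod K))| ≤ 1 := by
  rw [← R_shift, sum_zmod]
  exact avg_abs _ (fun i => cy f K n ((i : ZMod K) + (s : ZMod K)) * cy f K n ((i : ZMod K) + (s' : ZMod K)))
    (fun i => f_abs2' hf _ _) K (card_range K).le

lemma VR_le (hf : ∀ n, f n = 0 ∨ f n = 1) (K A n : ℕ) [NeZero K] (hAK : A ≤ K) (s s' : ℕ)
    (hs : s < A) (hs' : s' < A) : |V f K (n + s) (n + s') - R (cy f K n) ((s : ZMod K) - (s' : ZMod K))| ≤ 2 * A / K := by
  have hK : (0 : ℝ) < K := K_pos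
  have e1 : R (cy f K n) ((s : ZMod K) - (s' : ZMod K)) =
      (∑ i ∈ range K, cy f K n ((i : ZMod K) + (s : ZMod K)) * cy f K n ((i : ZMod K) + (s' : ZMod K))) / K := by
    rw [← R_shift, sum_zmod]
  rw [e1]
  unfold V
  rw [← sub_div, ← sum_sub_distrib, abs_div, abs_of_pos hK]
  apply div_le_div_of_nonneg_right _ hK.le
  have e3 : ∀ i ∈ range K, |f (n + s + i) * f (n + s' + i) -
      cy f K n ((i : ZMod K) + (s : ZMod K)) * cy f K n ((i : ZMod K) + (s' : ZMod K))| ≤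
      if i ∈ Ico (K - A) K then 2 else 0 := by
    intro i hi
    rw [mem_range] at hi
    by_cases h : i ∈ Ico (K - A) K
    · rw [if_pos h]
      have a1 := f_abs2' hf (n + s + i) (n + s' + i)
      have a2 : |cy f K n ((i : ZMod K) + (s : ZMod K)) * cy f K n ((i : ZMod K) + (s' : ZMod K))| ≤ 1 := by
        unfold cy
        exact f_abs2' hf _ _
      refine (abs_sub _ _).trans ?_
      linarith
    · rw [if_neg h]
      rw [mem_Ico] at h
      have b1 : i + s < K := by omega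
      have b2 : i + s' < K := by omega
      rw [← Nat.cast_add, ← Nat.cast_add, cy_cast K n (i + s) b1, cy_cast K n (i + s') b2]
      rw [show n + s + i = n + (i + s) by ring, show n + s' + i = n + (i + s') by ring, sub_self, abs_zero]
  refine (abs_sum_le_sum_abs _ _).trans ((sum_le_sum e3).trans ?_)
  rw [← sum_filter]
  have e4 : (range K).filter (fun i => i ∈ Ico (K - A) K) = Ico (K - A) K := by
    ext i
    simp only [mem_filter, mem_range, mem_Ico]
    omega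
  rw [e4, sum_const, Nat.card_Ico, nsmul_eq_mul]
  have : (K - (K - A) : ℕ) = A := by omega
  rw [this]
  linarith

/-- step 6 -/
lemma step6' (hf : ∀ n, f n = 0 ∨ f n = 1) (K A n : ℕ) [NeZero K] (hA : 1 ≤ A) (hAK : A ≤ K) :
    W3 f k0 K A n ≤ (∑ s ∈ range A, ∑ s' ∈ range A, (R (cy f K n) ((s : ZMod K) - (s' : ZMod K))) ^ k0) / (A : ℝ) ^ 2 +
      k0 * (2 * A / K) := by
  have hA0 : (0 : ℝ) < A := by exact_mod_cast hA
  have h1 : ∀ s ∈ range A, ∀ s' ∈ range A,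
      (V f K (n + s) (n + s')) ^ k0 ≤ (R (cy f K n) ((s : ZMod K) - (s' : ZMod K))) ^ k0 + k0 * (2 * A / K) := by
    intro s hs s' hs'
    rw [mem_range] at hs hs'
    have e6 := (abs_le.1 (pow_lip _ _ (V_abs' hf K (n + s) (n + s')) (Rcy_le hf K n s s') k0)).2
    have e7 : (k0 : ℝ) * |V f K (n + s) (n + s') - R (cy f K n) ((s : ZMod K) - (s' : ZMod K))| ≤ k0 * (2 * A / K) :=
      mul_le_mul_of_nonneg_left (VR_le hf K A n hAK s s' hs hs') (Nat.cast_nonneg _)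
    linarith
  unfold W3
  have h2 := sum_le_sum fun s hs => sum_le_sum fun s' hs' => h1 s hs s' hs'
  simp only [sum_add_distrib, sum_const, card_range, nsmul_eq_mul] at h2
  rw [div_add' _ _ _ (by positivity : ((A : ℝ) ^ 2) ≠ 0)]
  apply div_le_div_of_nonneg_right _ (by positivity)
  linarith

lemma avn_dist (hf : ∀ n, f n = 0 ∨ f n = 1) (α : ℝ) (hα0 : 0 ≤ α) (hα1 : α ≤ 1 / 2) (m p n : ℕ) : |avn f m p n - α| ≤ 1 := by
  have h1 : |avn f m p n| ≤ 1 := avg_abs _ (fun j => f (n + m * j)) (fun j => f_abs' hf _) p (card_range p).le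
  have h2 : 0 ≤ avn f m p n := div_nonneg (sum_nonneg fun j _ => f_nn hf _) (Nat.cast_nonneg _)
  have h3 := (abs_le.1 h1).2
  rw [abs_le]
  constructor <;> linarith

lemma av_dist (hf : ∀ n, f n = 0 ∨ f n = 1) (α : ℝ) (hα0 : 0 ≤ α) (hα1 : α ≤ 1 / 2) (K n m p : ℕ) [NeZero K] (y : ZMod K) :
    |av (cy f K n) m p y - α| ≤ 1 := by
  have h1 : |av (cy f K n) m p y| ≤ 1 :=
    avg_abs _ (fun j => cy f K n (y + (m : ZMod K) * (j : ZMod K))) (fun j => by
      unfold cy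
      exact f_abs' hf _) p (card_range p).le
  have h2 : 0 ≤ av (cy f K n) m p y := div_nonneg (sum_nonneg fun j _ => by
    unfold cy
    exact f_nn hf _) (Nat.cast_nonneg _)
  have h3 := (abs_le.1 h1).2
  rw [abs_le]
  constructor <;> linarith

/-- step 8 -/
lemma step8' (hf : ∀ n, f n = 0 ∨ f n = 1) (α : ℝ) (hα0 : 0 ≤ α) (hα1 : α ≤ 1 / 2) (K X m p : ℕ) [NeZero K] (hpK : m * p ≤ K) :
    ∑ n ∈ range X, (∑ y, |av (cy f K n) m p y - α|) / K ≤
      ∑ n ∈ range X, |avn f m p n - α| + K + X * (m * p / K) := by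
  have hK : (0 : ℝ) < K := K_pos
  have h1 : ∀ n, ∑ y, |av (cy f K n) m p y - α| ≤ ∑ i ∈ range K, |avn f m p (n + i) - α| + m * p := by
    intro n
    rw [sum_zmod]
    have h2 : ∀ i ∈ range K, |av (cy f K n) m p (i : ZMod K) - α| ≤ |avn f m p (n + i) - α| +
        if i ∈ Ico (K - m * p) K then 1 else 0 := by
      intro i hi
      rw [mem_range] at hi
      by_cases h : i ∈ Ico (K - m * p) K
      · rw [if_pos h]
        have a1 := av_dist hf α hα0 hα1 K n m p (i : ZMod K)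
        have a2 := abs_nonneg (avn f m p (n + i) - α)
        linarith
      · rw [if_neg h, add_zero]
        rw [mem_Ico] at h
        apply le_of_eq
        congr 2
        unfold av avn
        congr 1
        apply sum_congr rfl
        intro j hj
        rw [mem_range] at hj
        have b1 : m * j ≤ m * p := Nat.mul_le_mul_left _ hj.le
        have b2 : i + m * j < K := by omega
        have b3 : (i : ZMod K) + (m : ZMod K) * (j : ZMod K) = ((i + m * j : ℕ) : ZMod K) := by push_cast; ring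
        rw [b3, cy_cast K n _ b2]
        congr 1
        ring
    refine (sum_le_sum h2).trans ?_
    rw [sum_add_distrib, ← sum_filter]
    have e4 : (range K).filter (fun i => i ∈ Ico (K - m * p) K) = Ico (K - m * p) K := by
      ext i
      simp only [mem_filter, mem_range, mem_Ico]
      omega
    rw [e4, sum_const, Nat.card_Ico, nsmul_eq_mul, mul_one]
    have : (K - (K - m * p) : ℕ) = m * p := by omega
    rw [this]
    push_cast
    linarith
  rw [← sum_div, div_le_iff₀ hK]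
  refine (sum_le_sum fun n _ => h1 n).trans ?_
  rw [sum_add_distrib, sum_comm]
  have h3 : ∀ i ∈ range K, ∑ n ∈ range X, |avn f m p (n + i) - α| ≤ ∑ n ∈ range X, |avn f m p n - α| + K := by
    intro i hi
    rw [mem_range] at hi
    refine (shift_le (fun n => |avn f m p n - α|) (fun n => abs_nonneg _) (fun n => avn_dist hf α hα0 hα1 m p n) X i).trans ?_
    have : (i : ℝ) ≤ K := by exact_mod_cast hi.le
    linarith
  have h4 := sum_le_sum h3
  simp only [sum_const, card_range, nsmul_eq_mul] at h4 ⊢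
  have h5 : (∑ n ∈ range X, |avn f m p n - α| + K + X * (m * p / K)) * K =
      K * (∑ n ∈ range X, |avn f m p n - α| + K) + X * (m * p) := by
    field_simp
  rw [h5]
  linarith

lemma cy_pm' (hf : ∀ n, f n = 0 ∨ f n = 1) (K n : ℕ) [NeZero K] (x : ZMod K) : cy f K n x = 0 ∨ cy f K n x = 1 := hf _

/-- **the bound for a sequence** with all the parameters -/
theorem seq3 (hf : ∀ n, f n = 0 ∨ f n = 1) (hk : 1 ≤ k0) (α : ℝ) (hα0 : 0 ≤ α) (hα1 : α ≤ 1 / 2) (Q N0 A K H X p : ℕ)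
    [Fact p.Prime]
    (hQ : 26 * (k0 + 1) ≤ Q) (η w : ℝ) (hη : 0 < η) (hN0 : 1 / η ≤ N0) (hw : 0 < w)
    (hw2 : 4 * ((Q : ℝ) ^ N0 * p) * w ≤ 1 / Q) (hA : 1 ≤ A) (hAK : A ≤ K) (hpK : Q ^ N0 * p ≤ K) (hH : 1 ≤ H) :
    ∑ n ∈ range X, ∑ a ∈ Icc 1 H, S f H n a ^ k0 ≤
      X * H * (Ik k0 α + 1 / (4 * (A : ℝ) ^ 2 * w ^ 2) + k0 * η + 26 * k0 / Q + (2 * k0 + 1) / p) +
      2 * k0 * H * ∑ m ∈ Icc 1 (Q ^ N0), ∑ n ∈ range X, |avn f m p n - α| +
      (2 * k0 * H * (Q : ℝ) ^ N0 * (K + X * ((Q : ℝ) ^ N0 * p / K)) + X * H * (k0 * (2 * A / K)) + 2 * H * H + A * (H + X) +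
        X * H * (k0 * (2 * K / H))) := by
  have hK1 : 1 ≤ K := hA.trans hAK
  haveI : NeZero K := ⟨by omega⟩
  have hK : (0 : ℝ) < K := K_pos
  have hH0 : (0 : ℝ) < H := by exact_mod_cast hH
  have h3 := step3' (k0 := k0) hf K H X hK1 hH
  have h4 := step4' (k0 := k0) hf K H X A hA
  have h6 : ∑ n ∈ range X, W3 f k0 K A n ≤ X * (Ik k0 α + 1 / (4 * (A : ℝ) ^ 2 * w ^ 2) + k0 * η + 26 * k0 / Q + (2 * k0 + 1) / p) +
      2 * k0 * ∑ m ∈ Icc 1 (Q ^ N0), ∑ n ∈ range X, (∑ y, |av (cy f K n) m p y - α|) / K + X * (k0 * (2 * A / K)) := by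
    have e1 : ∀ n ∈ range X, W3 f k0 K A n ≤ (Ik k0 α + 1 / (4 * (A : ℝ) ^ 2 * w ^ 2) + k0 * η + 26 * k0 / Q + (2 * k0 + 1) / p) +
        2 * k0 * ∑ m ∈ Icc 1 (Q ^ N0), (∑ y, |av (cy f K n) m p y - α|) / K + k0 * (2 * A / K) := by
      intro n _
      have := step6' (k0 := k0) hf K A n hA hAK
      have h2 := window3 (p := p) (cy f K n) (cy_pm' hf K n) k0 hk α hα0 hα1 Q N0 A hQ η w hη hN0 hw hw2 hA
      linarith
    refine (sum_le_sum e1).trans (le_of_eq ?_)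
    simp only [sum_add_distrib, sum_const, card_range, nsmul_eq_mul, ← mul_sum]
    rw [sum_comm]
    ring
  have h8 : ∑ m ∈ Icc 1 (Q ^ N0), ∑ n ∈ range X, (∑ y, |av (cy f K n) m p y - α|) / K ≤
      ∑ m ∈ Icc 1 (Q ^ N0), ∑ n ∈ range X, |avn f m p n - α| + (Q : ℝ) ^ N0 * (K + X * ((Q : ℝ) ^ N0 * p / K)) := by
    have e1 : ∀ m ∈ Icc 1 (Q ^ N0), ∑ n ∈ range X, (∑ y, |av (cy f K n) m p y - α|) / K ≤
        ∑ n ∈ range X, |avn f m p n - α| + (K + X * ((Q : ℝ) ^ N0 * p / K)) := by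
      intro m hm
      rw [mem_Icc] at hm
      have e2 : m * p ≤ K := (Nat.mul_le_mul_right p hm.2).trans hpK
      have e3 := step8' hf α hα0 hα1 K X m p e2
      have e4 : (m : ℝ) ≤ (Q : ℝ) ^ N0 := by exact_mod_cast hm.2
      have e5 : (X : ℝ) * (m * p / K) ≤ X * ((Q : ℝ) ^ N0 * p / K) := by gcongr
      linarith
    refine (sum_le_sum e1).trans (le_of_eq ?_)
    simp only [sum_add_distrib, sum_const, Nat.card_Icc, Nat.add_sub_cancel, nsmul_eq_mul]
    push_cast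
    ring
  have h9 : H * ∑ n ∈ range X, W3 f k0 K A n ≤ H * (X * (Ik k0 α + 1 / (4 * (A : ℝ) ^ 2 * w ^ 2) + k0 * η + 26 * k0 / Q + (2 * k0 + 1) / p) +
      2 * k0 * (∑ m ∈ Icc 1 (Q ^ N0), ∑ n ∈ range X, |avn f m p n - α| + (Q : ℝ) ^ N0 * (K + X * ((Q : ℝ) ^ N0 * p / K))) +
      X * (k0 * (2 * A / K))) := by
    apply mul_le_mul_of_nonneg_left _ hH0.le
    have : 2 * (k0 : ℝ) * ∑ m ∈ Icc 1 (Q ^ N0), ∑ n ∈ range X, (∑ y, |av (cy f K n) m p y - α|) / K ≤
        2 * k0 * (∑ m ∈ Icc 1 (Q ^ N0), ∑ n ∈ range X, |avn f m p n - α| + (Q : ℝ) ^ N0 * (K + X * ((Q : ℝ) ^ N0 * p / K))) :=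
      mul_le_mul_of_nonneg_left h8 (by positivity)
    linarith
  linarith

end seq

end Pool.Agent.R509.PQ
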