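import Pool.Agent.R509.PQ.Cmp

/-!
Library R509.PQ (helper509): the bound for a window.
-/

set_option autoImplicit false

namespace Pool.Agent.R509.PQ

open Finset
open Pool.Agent.R509.CD

/-- the main term -/
noncomputable def Ik (k : ℕ) (α : ℝ) : ℝ := 2 * (α ^ (k + 1) / (k + 1))

section main

variable {p : ℕ} [Fact p.Prime]

/-- **the main bound for a window** -/
theorem window3 {K : ℕ} [NeZero K] (f : ZMod K → ℝ) (hf : ∀ x, f x = 0 ∨ f x = 1) (k : ℕ) (hk : 1 ≤ k)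
    (α : ℝ) (hα0 : 0 ≤ α) (hα1 : α ≤ 1 / 2) (Q N0 A : ℕ) (hQ : 26 * (k + 1) ≤ Q)
    (η w : ℝ) (hη : 0 < η) (hN0 : 1 / η ≤ N0) (hw : 0 < w) (hw2 : 4 * ((Q : ℝ) ^ N0 * p) * w ≤ 1 / Q) (hA : 1 ≤ A) :
    (∑ s ∈ range A, ∑ s' ∈ range A, R f ((s : ZMod K) - (s' : ZMod K)) ^ k) / (A : ℝ) ^ 2 ≤
      Ik k α + 1 / (4 * (A : ℝ) ^ 2 * w ^ 2) + k * η + 26 * k / Q + (2 * k + 1) / p +
        2 * k * ∑ m ∈ Icc 1 (Q ^ N0), (∑ y, |av f m p y - α|) / K := by
  haveI : NeZero p := ⟨(Fact.out : p.Prime).ne_zero⟩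
  have hK : (0 : ℝ) < K := K_pos
  have hp : (0 : ℝ) < p := K_pos
  have hf2 : ∀ x, f x ^ 2 ≤ 1 := fun x => by rcases hf x with h | h <;> rw [h] <;> norm_num
  obtain ⟨m, hm1, hm2, hm3⟩ := cmp_all (p := p) f hf2 k Q N0 A hQ η w hη hN0 hw hw2 hA
  refine (hm3 k le_rfl).trans ?_
  have hR : ∀ (y : ZMod K) (j : ZMod p), 0 ≤ R (gy (p := p) f m y) j := by
    intro y j
    unfold R
    apply div_nonneg _ hp.le
    apply sum_nonneg
    intro x _
    unfold gy
    have a1 : ∀ z, 0 ≤ f z := fun z => by rcases hf z with h | h <;> rw [h] <;> norm_num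
    exact mul_nonneg (a1 _) (a1 _)
  have h4 : (∑ j : ZMod p, ((∑ y, R (gy (p := p) f m y) j) / K) ^ k) / p ≤
      (∑ y, (∑ j, R (gy (p := p) f m y) j ^ k) / p) / K := by
    have e1 : ∀ j : ZMod p, ((∑ y, R (gy (p := p) f m y) j) / K) ^ k ≤ (∑ y, R (gy (p := p) f m y) j ^ k) / K := by
      intro j
      have := Real.pow_arith_mean_le_arith_mean_pow univ (fun _ : ZMod K => 1 / (K : ℝ))
        (fun y => R (gy (p := p) f m y) j) (fun _ _ => by positivity) (by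
          rw [sum_const, card_univ, ZMod.card, nsmul_eq_mul, mul_one_div, div_self hK.ne']) (fun y _ => hR y j) k
      rw [← mul_sum, ← mul_sum] at this
      rw [div_eq_inv_mul, div_eq_inv_mul, ← one_div]
      exact this
    calc (∑ j : ZMod p, ((∑ y, R (gy (p := p) f m y) j) / K) ^ k) / p ≤
          (∑ j : ZMod p, (∑ y, R (gy (p := p) f m y) j ^ k) / K) / p := by
          apply div_le_div_of_nonneg_right (sum_le_sum fun j _ => e1 j) hp.le
      _ = _ := by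
          rw [← sum_div, ← sum_div, sum_comm]
          field_simp
  have h5 : ∀ y ∈ (univ : Finset (ZMod K)), (∑ j, R (gy (p := p) f m y) j ^ k) / p ≤
      (Ik k α + (2 * k + 1) / p) + 2 * k * |av f m p y - α| := by
    intro y _
    rw [← gy_sum]
    exact mom (gy (p := p) f m y) (fun x => hf _) k hk α hα0 hα1
  have h6 : (∑ y, (∑ j, R (gy (p := p) f m y) j ^ k) / p) / K ≤
      (Ik k α + (2 * k + 1) / p) + 2 * k * ((∑ y, |av f m p y - α|) / K) := by
    rw [div_le_iff₀ hK]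
    refine (sum_le_sum h5).trans (le_of_eq ?_)
    rw [sum_add_distrib, ← mul_sum, sum_const, card_univ, ZMod.card, nsmul_eq_mul]
    field_simp
  have h7 : (∑ y, |av f m p y - α|) / K ≤ ∑ m ∈ Icc 1 (Q ^ N0), (∑ y, |av f m p y - α|) / K :=
    single_le_sum (f := fun m => (∑ y, |av f m p y - α|) / K) (fun m _ => by positivity) (mem_Icc.2 ⟨hm1, hm2⟩)
  have h8 : 2 * (k : ℝ) * ((∑ y, |av f m p y - α|) / K) ≤ 2 * k * ∑ m ∈ Icc 1 (Q ^ N0), (∑ y, |av f m p y - α|) / K :=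
    mul_le_mul_of_nonneg_left h7 (by positivity)
  linarith

end main

end Pool.Agent.R509.PQ
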